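import Pool.Agent.X278.AV.TwL
import Pool.Agent.X278.AV.CgF

/-!
# Quadratic twists with prescribed local components: the normal law, and density one as an interchange of limits

Let `π` be a self-contragredient cuspidal automorphic representation of `GL_r` over `ℚ` (for instance `r = 2`) which
satisfies the Ramanujan conjecture, with Satake parameters `α_{p,1}, …, α_{p,r}` at the primes `p ∤ N`, where `N` is even
and divisible by the ramified primes. In fact we allow arbitrary numbers `α_{p,i}` of absolute value at most `1` with real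
sums such that the product of the `(1 - α_{p,i} α_{p,j} p^{-s})⁻¹` has a simple pole at `s = 1`. Fix `γ > π/2`. For a
squarefree integer `d` with the quadratic character `χ_d = (d/·)` put

`S_d(T) = ∑_{p ∤ N} log |∏_i (1 - χ_d(p) α_{p,i} p^{-1/2})| · cos(γ u) / Γ(1 + u)`, `u = log p / T`,

an absolutely convergent sum over the primes. For every single `d`, `S_d(T) / log T` tends to the order of vanishing
`m(d)` of `L(s, π ⊗ χ_d)` at `s = 1/2` as `T → ∞`, with no hypothesis on zeros.

Let `d` run over the squarefree integers of a fixed sign in a fixed class `a` modulo `N`, `gcd(a, N) = 1`: these are the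
quadratic characters with prescribed (unramified) local components at the places dividing `N ∞`, and the root number
`ε(π ⊗ χ_d)` is constant on the family. Let `n` be the order at `s = 1` of the product of the `(1 - α_{p,i}² p^{-s})⁻¹`
(`n = 1` for representations of `PGL_2`). We prove

* a central limit theorem: if first `X → ∞` and then `T → ∞`, the proportion of the `d` with `|d| ≤ X` and
  `S_d(T) ≤ (n/2) log T + v √(log T)` tends to the standard normal distribution function `Φ(v)`, for both root numbers;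
  the exponential moments converge as well;
* let `P(X, T; c)` be the proportion with `S_d(T) ≤ c log T`: first `X → ∞`, then `T → ∞`, its limit is `0` for
  `c < n/2`, `1/2` for `c = n/2` and `1` for `c > n/2`;
* in the other order of the limits, for `n = 1`: if the root number is `1` (all the `m(d)` even), then the density one
  statement of the question (`m(d) = 0` for `100 %` of the `d`) is EQUIVALENT to `lim_X lim_T P(X, T; c) = 1`, for every
  single `c` in `(0, 2)`; so it is equivalent to the interchange of the two limits at one level `c` in `(1/2, 2)`. If the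
  root number is `-1` (all the `m(d)` odd), then `m(d) = 1` for `100 %` of the `d` if and only if the limits can be
  interchanged at one level `c` in `(1, 3)`, and they can not be interchanged at the levels `1/2 ≤ c < 1`;
* all this is UNCONDITIONAL for the `π` of an elliptic curve `y² = x³ + A x`, `A ≠ 0`: for these we prove the properties
  of the series which are used, and that the `L`-series of the twists are entire. (Replace `A` by `A q⁴` to enlarge the
  set of primes.)
-/

set_option autoImplicit false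

open Filter Topology Asymptotics

namespace Pool.Agent.Results.MP_50bb2e_nt.NormalLawInClasses

/-- The weight `cos(γu) / Γ(1 + u)`. -/
noncomputable def weight (γ u : ℝ) : ℝ := Real.cos (γ * u) / Real.Gamma (1 + u)

/-- `d` is squarefree, of the sign `s`, and `d ≡ a` modulo `N`. -/
def InClass (N : ℕ) (a s d : ℤ) : Prop := Squarefree d ∧ 0 < s * d ∧ (N : ℤ) ∣ d - a

/-- The members of the class with `|d| ≤ X`. -/
noncomputable def family (N : ℕ) (a s : ℤ) (X : ℕ) : Finset ℤ :=
  open Classical in (Finset.Icc (-(X : ℤ)) X).filter (InClass N a s)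

/-- The proportion of the members of the class with `|d| ≤ X` which have a property. -/
noncomputable def proportion (N : ℕ) (a s : ℤ) (X : ℕ) (P : ℤ → Prop) : ℝ :=
  open Classical in (((family N a s X).filter P).card : ℝ) / (family N a s X).card

/-- `P(X, T)` tends to `ℓ` if first `X → ∞` and then `T → ∞`. -/
def FirstX (P : ℕ → ℝ → ℝ) (ℓ : ℝ) : Prop := ∀ ε : ℝ, 0 < ε → ∀ᶠ T : ℝ in atTop, ∀ᶠ X : ℕ in atTop, |P X T - ℓ| < ε

/-- `P(X, T)` tends to `ℓ` if first `T → ∞` and then `X → ∞`. -/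
def FirstT (P : ℕ → ℝ → ℝ) (ℓ : ℝ) : Prop := ∀ ε : ℝ, 0 < ε → ∀ᶠ X : ℕ in atTop, ∀ᶠ T : ℝ in atTop, |P X T - ℓ| < ε

/-- `Φ(v)`, the distribution function of the standard normal law. -/
noncomputable def Phi (v : ℝ) : ℝ := (ProbabilityTheory.gaussianReal 0 1).real (Set.Iic v)

section

variable {r : ℕ} (α : Nat.Primes → Fin r → ℂ)

/-- The term `log |∏ (1 - (d/p) α_{p,i} p^{-1/2})| cos(γu) / Γ(1 + u)`, `u = log p / T`. -/
noncomputable def term (γ : ℝ) (d : ℤ) (T : ℝ) (p : Nat.Primes) : ℝ :=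
  (∑ i, Real.log ‖1 - ((jacobiSym d p : ℤ) : ℂ) * α p i / ((√((p : ℕ) : ℝ) : ℝ) : ℂ)‖) *
    weight γ (Real.log (p : ℕ) / T)

/-- `S_d(T)`. -/
noncomputable def S (γ : ℝ) (d : ℤ) (T : ℝ) : ℝ := ∑' p, term α γ d T p

/-- `P(X, T; c)`, the proportion of the members of the class with `|d| ≤ X` with `S_d(T) ≤ c log T`. -/
noncomputable def level (N : ℕ) (a s : ℤ) (γ c : ℝ) (X : ℕ) (T : ℝ) : ℝ :=
  proportion N a s X fun d => S α γ d T ≤ c * Real.log T

/-- `L` is the product of the `(1 - (d/p) α_{p,i} p^{-s})⁻¹` for `Re s > 1`. -/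
def IsTwist (d : ℤ) (L : ℂ → ℂ) : Prop := ∀ s : ℂ, 1 < s.re → HasProd (fun p : Nat.Primes =>
  ∏ i, (1 - ((jacobiSym d p : ℤ) : ℂ) * α p i * ((p : ℕ) : ℂ) ^ (-s))⁻¹) (L s)

/-- `F₂` is the product of the `(1 - α_{p,i}² p^{-s})⁻¹` for `Re s > 1`. -/
def IsSquareSeries (F₂ : ℂ → ℂ) : Prop := ∀ s : ℂ, 1 < s.re → HasProd (fun p : Nat.Primes =>
  ∏ i, (1 - α p i ^ 2 * ((p : ℕ) : ℂ) ^ (-s))⁻¹) (F₂ s)

/-- `G` is the product of the `(1 - α_{p,i} α_{p,j} p^{-s})⁻¹` for `Re s > 1`. -/
def IsPairSeries (G : ℂ → ℂ) : Prop := ∀ s : ℂ, 1 < s.re → HasProd (fun p : Nat.Primes =>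
  ∏ x : Fin r × Fin r, (1 - α p x.1 * α p x.2 * ((p : ℕ) : ℂ) ^ (-s))⁻¹) (G s)

end

/-- `N_p`, the number of affine points of `y² = x³ + A x` modulo `p`. -/
noncomputable def points (A : ℤ) (p : ℕ) : ℕ :=
  Nat.card {P : ZMod p × ZMod p // P.2 ^ 2 = P.1 ^ 3 + (A : ZMod p) * P.1}

/-- `α_{p,1}`, `α_{p,2}` are the normalised eigenvalues of Frobenius of `y² = x³ + A x` for `p ∤ 6 A`: their sum is
`(p - N_p) / √p`, their product is `1`. They are `0` for `p ∣ 6 A`. -/
def IsSatake (A : ℤ) (α : Nat.Primes → Fin 2 → ℂ) : Prop := ∀ p : Nat.Primes,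
  (((p : ℕ) : ℤ) ∣ 6 * A → ∀ i, α p i = 0) ∧
  (¬ ((p : ℕ) : ℤ) ∣ 6 * A →
    α p 0 + α p 1 = (((p : ℕ) : ℂ) - points A (p : ℕ)) / ((√((p : ℕ) : ℝ) : ℝ) : ℂ) ∧ α p 0 * α p 1 = 1)

open Pool.Agent.X278.AV Pool.Agent.X278.OP

theorem sq_one {s : ℤ} (hs : s = 1 ∨ s = -1) : s * s = 1 := by
  rcases hs with h | h <;> rw [h] <;> norm_num

theorem s_inj {s : ℤ} (hs : s = 1 ∨ s = -1) : Function.Injective fun m : ℕ => s * (m : ℤ) := by
  intro m n h
  have h1 : s * (s * (m : ℤ)) = s * (s * (n : ℤ)) := congrArg (fun z => s * z) h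
  rw [← mul_assoc, ← mul_assoc, sq_one hs, one_mul, one_mul] at h1
  exact_mod_cast h1

theorem family_eq (N : ℕ) (a : ℤ) {s : ℤ} (hs : s = 1 ∨ s = -1) (X : ℕ) :
    family N a s X = (SF N ((s * a : ℤ) : ZMod N) X).map ⟨fun m : ℕ => s * (m : ℤ), s_inj hs⟩ := by
  classical
  ext d
  unfold family SF InClass
  simp only [Finset.mem_filter, Finset.mem_map, Finset.mem_Icc]
  constructor
  · rintro ⟨⟨h1, h2⟩, h3, h4, h5⟩
    have h6 : ((s * d).toNat : ℤ) = s * d := Int.toNat_of_nonneg h4.le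
    have h7 : s * ((s * d).toNat : ℤ) = d := by rw [h6, ← mul_assoc, sq_one hs, one_mul]
    refine ⟨(s * d).toNat, ?_, h7⟩
    refine ⟨⟨?_, ?_⟩, ?_, ?_⟩
    · have : (1 : ℤ) ≤ ((s * d).toNat : ℤ) := by rw [h6]; exact h4
      exact_mod_cast this
    · have : ((s * d).toNat : ℤ) ≤ X := by
        rw [h6]
        rcases hs with h | h <;> rw [h] <;> linarith
      exact_mod_cast this
    · have h8 : Squarefree ((s * d).toNat : ℤ) := by
        rw [h6]
        refine (Squarefree.of_mul_left (n := s) ?_)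
        have e1 : s * d * s = d := by rw [mul_comm s d, mul_assoc, sq_one hs, mul_one]
        rw [e1]
        exact h3
      exact Int.squarefree_natCast.1 h8
    · have h9 : (((s * d).toNat : ℕ) : ZMod N) = ((s * d : ℤ) : ZMod N) := by
        rw [← h6]
        push_cast
        rfl
      rw [h9]
      have h10 : ((d - a : ℤ) : ZMod N) = 0 := (ZMod.intCast_zmod_eq_zero_iff_dvd _ _).2 h5
      push_cast at h10 ⊢
      rw [sub_eq_zero.1 h10]
  · rintro ⟨m, hm, rfl⟩
    obtain ⟨⟨h1, h2⟩, h3, h4⟩ := hm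
    have h1' : (1 : ℤ) ≤ m := by exact_mod_cast h1
    have h2' : (m : ℤ) ≤ X := by exact_mod_cast h2
    show (-(X : ℤ) ≤ s * m ∧ s * m ≤ X) ∧ Squarefree (s * (m : ℤ)) ∧ 0 < s * (s * (m : ℤ)) ∧ (N : ℤ) ∣ s * m - a
    refine ⟨?_, ?_, ?_, ?_⟩
    · rcases hs with h | h <;> rw [h] <;> constructor <;> linarith
    · refine Squarefree.of_mul_left (n := s) ?_
      have e1 : s * (m : ℤ) * s = m := by rw [mul_comm s (m : ℤ), mul_assoc, sq_one hs, mul_one]
      rw [e1]
      exact Int.squarefree_natCast.2 h3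
    · rw [← mul_assoc, sq_one hs, one_mul]
      linarith
    · rw [← ZMod.intCast_zmod_eq_zero_iff_dvd]
      push_cast at h4 ⊢
      rw [h4, ← mul_assoc]
      have : ((s : ℤ) : ZMod N) * (s : ZMod N) = 1 := by
        have := congrArg (fun z : ℤ => (z : ZMod N)) (sq_one hs)
        push_cast at this
        exact this
      rw [this, one_mul, sub_self]

theorem unit_class {N : ℕ} {a s : ℤ} (ha : IsCoprime a (N : ℤ)) (hs : s = 1 ∨ s = -1) :
    IsUnit ((s * a : ℤ) : ZMod N) := by
  push_cast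
  refine IsUnit.mul ?_ ?_
  · rcases hs with h | h <;> rw [h] <;> simp
  · obtain ⟨x, y, h⟩ := ha
    have h1 := congrArg (fun z : ℤ => (z : ZMod N)) h
    push_cast at h1
    rw [ZMod.natCast_self, mul_zero, add_zero] at h1
    exact IsUnit.of_mul_eq_one_right _ h1

theorem jac (p : Nat.Primes) (d : ℤ) : jacobiSym d p = quadraticChar (ZMod p) ((d : ℤ) : ZMod p) := by
  rw [← jacobiSym.legendreSym.to_jacobiSym]
  rfl

section

variable {r : ℕ} {α : Nat.Primes → Fin r → ℂ}

open Classical in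
theorem term_eq {N : ℕ} (hα0 : ∀ p : Nat.Primes, (p : ℕ) ∣ N → ∀ i, α p i = 0) (γ : ℝ) (s : ℤ) (m : ℕ) (T : ℝ)
    (p : Nat.Primes) : term α γ (s * m) T p = (if (p : ℕ) ∣ N then 0 else gU α s p ((m : ℕ) : ZMod p)) *
      (Real.cos (γ * (Real.log (p : ℕ) / T)) / Real.Gamma (1 + Real.log (p : ℕ) / T)) := by
  unfold term weight
  congr 1
  by_cases h : (p : ℕ) ∣ N
  · rw [if_pos h]
    refine Finset.sum_eq_zero fun i _ => ?_
    rw [hα0 p h i]
    simp
  · rw [if_neg h]
    unfold gU
    rw [jac]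
    push_cast
    rfl

/-- the sums -/
theorem S_eq {N : ℕ} (hα0 : ∀ p : Nat.Primes, (p : ℕ) ∣ N → ∀ i, α p i = 0) (γ : ℝ) (s : ℤ) (m : ℕ) (T : ℝ) :
    S α γ (s * m) T = SmG (fun p : Nat.Primes => ((p : ℕ) : ℝ)) (fun p (d : ℕ) => fN α s N p ((d : ℕ) : ZMod p)) γ T m := by
  classical
  unfold S SmG
  refine tsum_congr fun p => ?_
  rw [term_eq hα0 γ s m T p]
  unfold fN wr
  ring

theorem card_eq (N : ℕ) (a : ℤ) {s : ℤ} (hs : s = 1 ∨ s = -1) (X : ℕ) :
    (family N a s X).card = (SF N ((s * a : ℤ) : ZMod N) X).card := by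
  rw [family_eq N a hs, Finset.card_map]

open Classical in
theorem prop_eq (N : ℕ) (a : ℤ) {s : ℤ} (hs : s = 1 ∨ s = -1) (X : ℕ) (P : ℤ → Prop) :
    proportion N a s X P = (((SF N ((s * a : ℤ) : ZMod N) X).filter fun m : ℕ => P (s * m)).card : ℝ) /
      (SF N ((s * a : ℤ) : ZMod N) X).card := by
  unfold proportion
  rw [card_eq N a hs, family_eq N a hs, Finset.filter_map, Finset.card_map]
  congr 2

end

open ProbabilityTheory MeasureTheory in
theorem Phi_zero : Phi 0 = 1 / 2 := by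
  unfold Phi
  have hna := nullSingletonClass_gaussianReal (μ := 0) (v := 1) one_ne_zero
  have h1 : gaussianReal 0 1 (Set.Ici 0) = gaussianReal 0 1 (Set.Iic 0) := by
    have h2 : (gaussianReal 0 1).map (fun x => -x) = gaussianReal 0 1 := by
      rw [gaussianReal_map_neg, neg_zero]
    have h3 : (gaussianReal 0 1).map (fun x => -x) (Set.Ici 0) = gaussianReal 0 1 (Set.Iic 0) := by
      rw [Measure.map_apply measurable_neg measurableSet_Ici]
      congr 1
      ext x
      simp
    rw [← h3, h2]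
  have h2 : gaussianReal 0 1 (Set.Ioi 0) = gaussianReal 0 1 (Set.Ici 0) := measure_congr Ioi_ae_eq_Ici
  have h3 : (gaussianReal 0 1).real (Set.Iic 0) + (gaussianReal 0 1).real (Set.Iic 0)ᶜ = 1 := by
    rw [measureReal_add_measureReal_compl measurableSet_Iic, probReal_univ]
  have h4 : (gaussianReal 0 1).real (Set.Iic (0 : ℝ))ᶜ = (gaussianReal 0 1).real (Set.Iic 0) := by
    rw [Set.compl_Iic]
    unfold Measure.real
    rw [h2, h1]
  rw [h4] at h3
  linarith

theorem abs_conv {r : ℕ} (N : ℕ) (hN : N ≠ 0) (hN2 : 2 ∣ N) (a s : ℤ) (ha : IsCoprime a (N : ℤ)) (hs : s = 1 ∨ s = -1)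
    (α : Nat.Primes → Fin r → ℂ) (hα : ∀ p i, ‖α p i‖ ≤ 1) (hα0 : ∀ p : Nat.Primes, (p : ℕ) ∣ N → ∀ i, α p i = 0)
    (γ : ℝ) (d : ℤ) (hd : InClass N a s d) (T : ℝ) (hT : 0 < T) : Summable fun p => |term α γ d T p| := by
  classical
  have : NeZero N := ⟨hN⟩
  have hu := unit_class ha hs
  have D := FnG_SF hα hN2 hα0 hs hu
  obtain ⟨m, rfl⟩ : ∃ m : ℕ, d = s * m := by
    refine ⟨(s * d).toNat, ?_⟩
    rw [Int.toNat_of_nonneg hd.2.1.le, ← mul_assoc, sq_one hs, one_mul]
  refine (D.summ γ hT m).congr fun p => ?_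
  rw [term_eq hα0 γ s m T p]
  unfold fN wr
  rw [mul_comm]

/-- The normal law in a class of constant root number; density one as an interchange of limits. -/
theorem general {r : ℕ} (N : ℕ) (hN : N ≠ 0) (hN2 : 2 ∣ N) (a s : ℤ) (ha : IsCoprime a (N : ℤ)) (hs : s = 1 ∨ s = -1)
    (α : Nat.Primes → Fin r → ℂ) (hα : ∀ p i, ‖α p i‖ ≤ 1) (hα0 : ∀ p : Nat.Primes, (p : ℕ) ∣ N → ∀ i, α p i = 0)
    (hreal : ∀ p, (∑ i, α p i).im = 0)
    (F₂ : ℂ → ℂ) (hF₂ : IsSquareSeries α F₂) (hm₂ : MeromorphicAt F₂ 1)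
    (G : ℂ → ℂ) (hG : IsPairSeries α G) (hmG : MeromorphicAt G 1) (hG1 : meromorphicOrderAt G 1 = ((-1 : ℤ) : WithTop ℤ))
    (γ : ℝ) (hγ : Real.pi / 2 < γ) :
    -- absolute convergence
    (∀ d : ℤ, InClass N a s d → ∀ T : ℝ, 0 < T → Summable fun p => |term α γ d T p|) ∧
    ∃ n : ℤ, meromorphicOrderAt F₂ 1 = n ∧
      -- A. the normal law
      (∀ v : ℝ, FirstX (fun X T => proportion N a s X fun d =>
        (S α γ d T - n / 2 * Real.log T) / √(Real.log T) ≤ v) (Phi v)) ∧ Phi 0 = 1 / 2 ∧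
      (∀ (ζ : ℂ) (ε : ℝ), 0 < ε → ∀ᶠ T : ℝ in atTop, ∀ᶠ X : ℕ in atTop,
        ‖(∑ d ∈ family N a s X, Complex.exp (ζ * (((S α γ d T - n / 2 * Real.log T) / √(Real.log T) : ℝ) : ℂ))) /
          (family N a s X).card - Complex.exp (ζ ^ 2 / 2)‖ < ε) ∧
      -- B. the levels
      (∀ c : ℝ, (c < n / 2 → FirstX (level α N a s γ c) 0) ∧ (c = n / 2 → FirstX (level α N a s γ c) (1 / 2)) ∧
        (n / 2 < c → FirstX (level α N a s γ c) 1)) ∧
      -- C. the orders of vanishing
      ∀ L : ℤ → ℂ → ℂ,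
        (∀ d : ℤ, InClass N a s d → IsTwist α d (L d) ∧
          ∀ x : ℝ, 1 / 2 ≤ x → x ≤ 1 → MeromorphicAt (L d) (x : ℂ)) →
        ∃ m : ℤ → ℤ,
          (∀ d : ℤ, InClass N a s d → meromorphicOrderAt (L d) (1 / 2) = m d ∧
            Tendsto (fun T : ℝ => S α γ d T / Real.log T) atTop (𝓝 (m d : ℝ))) ∧
          (∀ c : ℝ, (∀ d : ℤ, InClass N a s d → (m d : ℝ) ≠ c) → ∀ X : ℕ,
            Tendsto (level α N a s γ c X) atTop (𝓝 (proportion N a s X fun d => (m d : ℝ) ≤ c))) ∧
          -- D. root number `1`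
          (n = 1 → (∀ d, InClass N a s d → 0 ≤ m d ∧ Even (m d)) → ∀ c : ℝ, 0 < c → c < 2 →
            (Tendsto (fun X => proportion N a s X fun d => m d = 0) atTop (𝓝 1) ↔ FirstT (level α N a s γ c) 1) ∧
            (1 / 2 < c → FirstX (level α N a s γ c) 1)) ∧
          -- E. root number `-1`
          (n = 1 → (∀ d, InClass N a s d → 0 ≤ m d ∧ Odd (m d)) → ∀ c : ℝ,
            (1 / 2 < c → c < 1 → FirstX (level α N a s γ c) 1 ∧ FirstT (level α N a s γ c) 0) ∧
            (1 < c → c < 3 → FirstX (level α N a s γ c) 1 ∧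
              (Tendsto (fun X => proportion N a s X fun d => m d = 1) atTop (𝓝 1) ↔
                FirstT (level α N a s γ c) 1))) := by
  classical
  have : NeZero N := ⟨hN⟩
  have hu := unit_class ha hs
  have hB : (0 : ℝ) ≤ 4 * r := by positivity
  -- the orders and the asymptotics
  obtain ⟨n, c₀, hn, hsum2, hlim2⟩ := real_axis (β := fun p i => α p i ^ 2) (F := F₂) (fun p i => by
    rw [norm_pow]
    exact pow_le_one₀ (norm_nonneg _) (hα p i)) hF₂ hm₂
  obtain ⟨m₀, c₁, hm₀, hsumG, hlimG⟩ := real_axis (β := fun p (x : Fin r × Fin r) => α p x.1 * α p x.2) (F := G)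
    (fun p x => by
      rw [norm_mul]
      exact mul_le_one₀ (hα p _) (norm_nonneg _) (hα p _)) hG hmG
  have hm1 : m₀ = -1 := by
    rw [hG1] at hm₀
    exact_mod_cast hm₀.symm
  subst hm1
  have W := nu_sd hreal hsumG hlimG
  have W' : Wts (fun p : Nat.Primes => ((p : ℕ) : ℝ)) (nuU α) 1 c₁ := by
    have e1 : (-((-1 : ℤ) : ℝ)) = 1 := by push_cast; ring
    rw [e1] at W
    exact W
  obtain ⟨k₁, k₂, A⟩ := as_of hα hsum2 hlim2 W' γ
  have D := FnG_SF hα hN2 hα0 hs hu
  have A1 : As (fun p : Nat.Primes => ((p : ℕ) : ℝ)) (kapU α) (nuU α) γ (n / 2) ((1 : NNReal) : ℝ) k₁ k₂ := by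
    rw [NNReal.coe_one]
    exact A
  have hne : ∀ᶠ X in atTop, (family N a s X).Nonempty := by
    filter_upwards [D.ne] with X hX
    rw [← Finset.card_pos, card_eq N a hs]
    exact hX.card_pos
  have hform : ∀ d, InClass N a s d → ∃ m : ℕ, d = s * m := by
    intro d hd
    refine ⟨(s * d).toNat, ?_⟩
    rw [Int.toNat_of_nonneg hd.2.1.le, ← mul_assoc, sq_one hs, one_mul]
  have hA : ∀ v : ℝ, FirstX (fun X T => proportion N a s X fun d =>
      (S α γ d T - n / 2 * Real.log T) / √(Real.log T) ≤ v) (Phi v) := by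
    intro v ε hε
    have h1 := D.gauss A1 one_ne_zero v ε hε
    filter_upwards [h1] with T h2
    filter_upwards [h2] with X hX
    have e1 := prop_eq N a hs X (fun d => (S α γ d T - n / 2 * Real.log T) / √(Real.log T) ≤ v)
    show |proportion N a s X (fun d => (S α γ d T - n / 2 * Real.log T) / √(Real.log T) ≤ v) - Phi v| < ε
    rw [e1]
    simp only [S_eq hα0]
    exact hX
  -- proportions
  have hmono : ∀ (X : ℕ) (P Q : ℤ → Prop), (∀ d, P d → Q d) → proportion N a s X P ≤ proportion N a s X Q := by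
    intro X P Q h
    unfold proportion
    gcongr
    exact h _
  have h01 : ∀ (X : ℕ) (P : ℤ → Prop), 0 ≤ proportion N a s X P ∧ proportion N a s X P ≤ 1 := by
    intro X P
    unfold proportion
    refine ⟨by positivity, ?_⟩
    refine div_le_one_of_le₀ ?_ (Nat.cast_nonneg _)
    exact_mod_cast Finset.card_filter_le _ _
  have hPhi1 : Tendsto Phi atTop (𝓝 1) := by
    have h1 := ProbabilityTheory.tendsto_cdf_atTop (ProbabilityTheory.gaussianReal 0 1)
    refine h1.congr fun x => ?_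
    rw [ProbabilityTheory.cdf_eq_real]
    rfl
  have hPhi0 : Tendsto Phi atBot (𝓝 0) := by
    have h1 := ProbabilityTheory.tendsto_cdf_atBot (ProbabilityTheory.gaussianReal 0 1)
    refine h1.congr fun x => ?_
    rw [ProbabilityTheory.cdf_eq_real]
    rfl
  have hlog : Tendsto (fun T : ℝ => √(Real.log T)) atTop atTop := Real.tendsto_sqrt_atTop.comp Real.tendsto_log_atTop
  have hnorm : ∀ (T c v : ℝ), 1 < T → ∀ d : ℤ, (S α γ d T ≤ c * Real.log T ↔
      (S α γ d T - n / 2 * Real.log T) / √(Real.log T) ≤ (c - n / 2) * √(Real.log T)) := by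
    intro T c v hT d
    have hl : 0 < Real.log T := Real.log_pos hT
    have hs : 0 < √(Real.log T) := Real.sqrt_pos.2 hl
    have hss : √(Real.log T) * √(Real.log T) = Real.log T := Real.mul_self_sqrt hl.le
    rw [div_le_iff₀ hs, mul_assoc, hss]
    constructor <;> intro h <;> linarith
  have hB1 : ∀ c : ℝ, n / 2 < c → FirstX (level α N a s γ c) 1 := by
    intro c hc ε hε
    obtain ⟨v, hv⟩ := ((Metric.tendsto_nhds.1 hPhi1) (ε / 2) (by positivity)).exists
    rw [Real.dist_eq] at hv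
    have h2 := hlog.const_mul_atTop (sub_pos.2 hc)
    filter_upwards [hA v (ε / 2) (by positivity), h2.eventually_ge_atTop v, eventually_gt_atTop (1 : ℝ)] with T h3 h4 h5
    filter_upwards [h3] with X h6
    have h7 : proportion N a s X (fun d => (S α γ d T - n / 2 * Real.log T) / √(Real.log T) ≤ v) ≤
        level α N a s γ c X T := hmono X _ _ fun d hd => (hnorm T c v h5 d).2 (hd.trans h4)
    have h8 : level α N a s γ c X T ≤ 1 := (h01 X _).2
    rw [abs_lt] at h6 hv ⊢
    constructor <;> linarith [h6.1, h6.2, hv.1, hv.2]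
  have hB0 : ∀ c : ℝ, c < n / 2 → FirstX (level α N a s γ c) 0 := by
    intro c hc ε hε
    obtain ⟨v, hv⟩ := ((Metric.tendsto_nhds.1 hPhi0) (ε / 2) (by positivity)).exists
    rw [Real.dist_eq] at hv
    have h2 : Tendsto (fun T : ℝ => (c - n / 2) * √(Real.log T)) atTop atBot :=
      hlog.const_mul_atTop_of_neg (sub_neg.2 hc)
    filter_upwards [hA v (ε / 2) (by positivity), h2.eventually_le_atBot v, eventually_gt_atTop (1 : ℝ)] with T h3 h4 h5
    filter_upwards [h3] with X h6
    have h7 : level α N a s γ c X T ≤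
        proportion N a s X (fun d => (S α γ d T - n / 2 * Real.log T) / √(Real.log T) ≤ v) :=
      hmono X _ _ fun d hd => ((hnorm T c v h5 d).1 hd).trans h4
    have h8 : 0 ≤ level α N a s γ c X T := (h01 X _).1
    rw [abs_lt] at h6 hv ⊢
    constructor <;> linarith [h6.1, h6.2, hv.1, hv.2]
  have hBh : ∀ c : ℝ, c = n / 2 → FirstX (level α N a s γ c) (1 / 2) := by
    intro c hc ε hε
    have h1 := hA 0 ε hε
    filter_upwards [h1, eventually_gt_atTop (1 : ℝ)] with T h2 h3
    filter_upwards [h2] with X h4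
    rw [Phi_zero] at h4
    have e1 : level α N a s γ c X T = proportion N a s X (fun d =>
        (S α γ d T - n / 2 * Real.log T) / √(Real.log T) ≤ 0) := by
      unfold level
      congr 1
      funext d
      rw [hnorm T c 0 h3 d, hc, sub_self, zero_mul]
    rw [e1]
    exact h4
  refine ⟨fun d hd T hT => ?_, n, hn, hA, Phi_zero, ?_, fun c => ⟨hB0 c, hBh c, hB1 c⟩, fun L hL => ?_⟩
  · obtain ⟨m, rfl⟩ := hform d hd
    refine (D.summ γ hT m).congr fun p => ?_
    rw [term_eq hα0 γ s m T p]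
    unfold fN wr
    rw [mul_comm]
  · intro ζ ε hε
    have h1 := (Metric.tendsto_nhds.1 (D.curry A1 ζ)) ε hε
    rw [Filter.eventually_curry_iff] at h1
    filter_upwards [h1] with T h2
    filter_upwards [h2] with X hX
    rw [dist_eq_norm] at hX
    have e1 : ((((1 : NNReal) : ℝ) : ℂ) * ζ ^ 2 / 2) = ζ ^ 2 / 2 := by push_cast; ring
    rw [e1] at hX
    refine lt_of_eq_of_lt ?_ hX
    congr 2
    unfold Pool.Agent.X278.AV.meanC
    rw [card_eq N a hs, family_eq N a hs, Finset.sum_map]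
    congr 1
    refine Finset.sum_congr rfl fun m _ => ?_
    show Complex.exp (ζ * (((S α γ (s * (m : ℤ)) T - n / 2 * Real.log T) / √(Real.log T) : ℝ) : ℂ)) = _
    rw [S_eq hα0]
    rfl
  · have hgr : ∀ d : ℤ, InClass N a s d → ∃ m : ℤ, meromorphicOrderAt (L d) (1 / 2) = m ∧
        Tendsto (fun T : ℝ => S α γ d T / Real.log T) atTop (𝓝 (m : ℝ)) := by
      intro d hd
      obtain ⟨h1, h2⟩ := hL d hd
      obtain ⟨k, hk⟩ := hform d hd
      set β : Nat.Primes → Fin r → ℂ := fun p i => ((jacobiSym d p : ℤ) : ℂ) * α p i with hβd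
      have hβ : ∀ p i, ‖β p i‖ ≤ 1 := by
        intro p i
        rw [hβd]
        simp only
        rw [norm_mul, jac]
        exact mul_le_one₀ (qc_norm p _) (norm_nonneg _) (hα p i)
      obtain ⟨m, hm1, hm2⟩ := uni_growth hβ (F := L d) (fun s hs => h1 s hs) h2 hγ
      have e0 : ((1 / 2 : ℝ) : ℂ) = 1 / 2 := by push_cast; rfl
      rw [e0] at hm1
      refine ⟨m, hm1, ?_⟩
      refine hm2.lim.congr' ?_
      filter_upwards [eventually_gt_atTop (0 : ℝ)] with T hT
      congr 1
      have hs2 : Summable fun p : Nat.Primes => ((lf β p : ℝ) : ℂ) * Wt γ (Real.log (p : ℕ) / T) := by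
        refine Summable.of_norm (Summable.of_nonneg_of_le (fun _ => norm_nonneg _) (fun p => ?_)
          (wt_sum (γ := γ) hT hB))
        rw [norm_mul, Complex.norm_real, Real.norm_eq_abs]
        gcongr
        exact lf_bd (hβ p)
      rw [Complex.re_tsum hs2]
      unfold S
      refine tsum_congr fun p => ?_
      rw [Complex.re_ofReal_mul, re_Wt]
      unfold term weight lf
      rw [hβd]
    choose! m hm1 hm2 using hgr
    have hlev : ∀ c : ℝ, (∀ d : ℤ, InClass N a s d → (m d : ℝ) ≠ c) → ∀ X : ℕ,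
        Tendsto (level α N a s γ c X) atTop (𝓝 (proportion N a s X fun d => (m d : ℝ) ≤ c)) := by
      intro c hc X
      have h1 : ∀ d ∈ family N a s X, ∀ᶠ T : ℝ in atTop, (S α γ d T ≤ c * Real.log T ↔ (m d : ℝ) ≤ c) := by
        intro d hd
        have hd' : InClass N a s d := (Finset.mem_filter.1 hd).2
        have h2 := hm2 d hd'
        rcases lt_or_gt_of_ne (hc d hd') with h | h
        · filter_upwards [h2.eventually_lt_const h, eventually_gt_atTop (1 : ℝ)] with T h3 h4
          rw [div_lt_iff₀ (Real.log_pos h4)] at h3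
          exact ⟨fun _ => h.le, fun _ => h3.le⟩
        · filter_upwards [h2.eventually_const_lt h, eventually_gt_atTop (1 : ℝ)] with T h3 h4
          rw [lt_div_iff₀ (Real.log_pos h4)] at h3
          exact ⟨fun h5 => absurd h5 (not_le.2 h3), fun h5 => absurd h5 (not_le.2 h)⟩
      have h2 : ∀ᶠ T : ℝ in atTop, ∀ d ∈ family N a s X, (S α γ d T ≤ c * Real.log T ↔ (m d : ℝ) ≤ c) :=
        (Filter.eventually_all_finset (family N a s X)).2 h1
      refine tendsto_const_nhds.congr' ?_
      filter_upwards [h2] with T hT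
      unfold level proportion
      rw [Finset.filter_congr hT]
    have hiff : ∀ (c ℓ : ℝ), (∀ d : ℤ, InClass N a s d → (m d : ℝ) ≠ c) →
        (Tendsto (fun X => proportion N a s X fun d => (m d : ℝ) ≤ c) atTop (𝓝 ℓ) ↔
          FirstT (level α N a s γ c) ℓ) := by
      intro c ℓ hc
      constructor
      · intro h ε hε
        have h1 := (Metric.tendsto_nhds.1 h) ε hε
        filter_upwards [h1] with X hX
        rw [Real.dist_eq] at hX
        exact ((hlev c hc X).sub_const ℓ).abs.eventually_lt_const hX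
      · intro h
        rw [Metric.tendsto_nhds]
        intro ε hε
        filter_upwards [h (ε / 2) (by positivity)] with X hX
        have h3 : |(proportion N a s X fun d => (m d : ℝ) ≤ c) - ℓ| ≤ ε / 2 :=
          le_of_tendsto ((hlev c hc X).sub_const ℓ).abs (hX.mono fun T hT => hT.le)
        rw [Real.dist_eq]
        linarith
    have hcongr : ∀ (X : ℕ) (P Q : ℤ → Prop), (∀ d, InClass N a s d → (P d ↔ Q d)) →
        proportion N a s X P = proportion N a s X Q := by
      intro X P Q h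
      unfold proportion
      have e1 : (family N a s X).filter P = (family N a s X).filter Q :=
        Finset.filter_congr fun d hd => h d (Finset.mem_filter.1 hd).2
      rw [e1]
    refine ⟨m, fun d hd => ⟨hm1 d hd, hm2 d hd⟩, hlev, fun hn1 h0 c hc0 hc2 => ?_, fun hn1 h0 c => ⟨fun hc1 hc2 => ?_,
      fun hc1 hc2 => ?_⟩⟩
    · have hcase : ∀ d, InClass N a s d → m d = 0 ∨ 2 ≤ m d := by
        intro d hd
        obtain ⟨a1, k, a2⟩ := h0 d hd
        omega
      have hc : ∀ d : ℤ, InClass N a s d → (m d : ℝ) ≠ c := by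
        intro d hd h
        rcases hcase d hd with h1 | h1
        · rw [h1] at h
          push_cast at h
          linarith
        · have : (2 : ℝ) ≤ m d := by exact_mod_cast h1
          linarith
      refine ⟨?_, fun h1 => hB1 c (by rw [hn1]; push_cast; linarith)⟩
      rw [← hiff c 1 hc]
      have e1 : ∀ X, (proportion N a s X fun d => m d = 0) = proportion N a s X fun d => (m d : ℝ) ≤ c := by
        intro X
        refine hcongr X _ _ fun d hd => ?_
        rcases hcase d hd with h1 | h1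
        · rw [h1]
          push_cast
          exact ⟨fun _ => hc0.le, fun _ => trivial⟩
        · have h2 : (2 : ℝ) ≤ m d := by exact_mod_cast h1
          exact ⟨fun h => by omega, fun h => by linarith⟩
      simp only [e1]
    · have hcase : ∀ d, InClass N a s d → 1 ≤ m d := by
        intro d hd
        obtain ⟨a1, k, a2⟩ := h0 d hd
        omega
      have hge : ∀ d, InClass N a s d → (1 : ℝ) ≤ m d := fun d hd => by exact_mod_cast hcase d hd
      refine ⟨hB1 c (by rw [hn1]; push_cast; linarith), ?_⟩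
      rw [← hiff c 0 (fun d hd h => by have := hge d hd; linarith)]
      refine tendsto_const_nhds.congr fun X => ?_
      unfold proportion
      rw [Finset.filter_false_of_mem fun d hd h => by have := hge d (Finset.mem_filter.1 hd).2; linarith]
      simp
    · have hcase : ∀ d, InClass N a s d → m d = 1 ∨ 3 ≤ m d := by
        intro d hd
        obtain ⟨a1, k, a2⟩ := h0 d hd
        omega
      have hc : ∀ d : ℤ, InClass N a s d → (m d : ℝ) ≠ c := by
        intro d hd h
        rcases hcase d hd with h1 | h1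
        · rw [h1] at h
          push_cast at h
          linarith
        · have : (3 : ℝ) ≤ m d := by exact_mod_cast h1
          linarith
      refine ⟨hB1 c (by rw [hn1]; push_cast; linarith), ?_⟩
      rw [← hiff c 1 hc]
      have e1 : ∀ X, (proportion N a s X fun d => m d = 1) = proportion N a s X fun d => (m d : ℝ) ≤ c := by
        intro X
        refine hcongr X _ _ fun d hd => ?_
        rcases hcase d hd with h1 | h1
        · rw [h1]
          push_cast
          exact ⟨fun _ => hc1.le, fun _ => trivial⟩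
        · have h2 : (3 : ℝ) ≤ m d := by exact_mod_cast h1
          exact ⟨fun h => by omega, fun h => by linarith⟩
      simp only [e1]

/-! ### the curves `y² = x³ + A x` -/

theorem points_eq (A : ℤ) (p : ℕ) : ((Pool.Agent.Y19.QT.ap A 0 p : ℤ) : ℂ) = (p : ℂ) - points A p := by
  unfold points Pool.Agent.Y19.QT.ap
  simp only [Int.cast_zero, add_zero]
  push_cast
  rfl

theorem sat_iff (A : ℤ) (α : Nat.Primes → Fin 2 → ℂ) : IsSatake A α ↔ Cg.Sat A α := by
  unfold IsSatake Cg.Sat
  simp only [points_eq]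

theorem prop_congr2 (N : ℕ) (a s : ℤ) (X : ℕ) {P Q : ℤ → Prop} (h : ∀ d : ℤ, InClass N a s d → (P d ↔ Q d)) :
    proportion N a s X P = proportion N a s X Q := by
  classical
  unfold proportion
  congr 2
  refine congrArg Finset.card (Finset.filter_congr fun d hd => ?_)
  unfold family at hd
  exact h d (Finset.mem_filter.1 hd).2

/-- **The normal law in a class of constant root number; density one as an interchange of limits; unconditional results
for the curves `y² = x³ + A x`.** -/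
theorem result :
    -- absolute convergence
    (∀ (r N : ℕ) (a s : ℤ) (α : Nat.Primes → Fin r → ℂ), N ≠ 0 → 2 ∣ N → IsCoprime a (N : ℤ) → (s = 1 ∨ s = -1) →
      (∀ p i, ‖α p i‖ ≤ 1) → (∀ p : Nat.Primes, (p : ℕ) ∣ N → ∀ i, α p i = 0) →
      ∀ (γ : ℝ) (d : ℤ), InClass N a s d → ∀ T : ℝ, 0 < T → Summable fun p => |term α γ d T p|) ∧
    -- I. all systems of numbers `α`
    (∀ (r N : ℕ) (a s : ℤ) (α : Nat.Primes → Fin r → ℂ), N ≠ 0 → 2 ∣ N → IsCoprime a (N : ℤ) → (s = 1 ∨ s = -1) →
      (∀ p i, ‖α p i‖ ≤ 1) → (∀ p : Nat.Primes, (p : ℕ) ∣ N → ∀ i, α p i = 0) → (∀ p, (∑ i, α p i).im = 0) →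
      ∀ F₂ : ℂ → ℂ, IsSquareSeries α F₂ → MeromorphicAt F₂ 1 →
      ∀ G : ℂ → ℂ, IsPairSeries α G → MeromorphicAt G 1 → meromorphicOrderAt G 1 = ((-1 : ℤ) : WithTop ℤ) →
      ∀ γ : ℝ, Real.pi / 2 < γ →
      ∃ n : ℤ, meromorphicOrderAt F₂ 1 = n ∧
        -- A. the normal law
        (∀ v : ℝ, FirstX (fun X T => proportion N a s X fun d =>
          (S α γ d T - n / 2 * Real.log T) / √(Real.log T) ≤ v) (Phi v)) ∧ Phi 0 = 1 / 2 ∧
        (∀ (ζ : ℂ) (ε : ℝ), 0 < ε → ∀ᶠ T : ℝ in atTop, ∀ᶠ X : ℕ in atTop,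
          ‖(∑ d ∈ family N a s X, Complex.exp (ζ * (((S α γ d T - n / 2 * Real.log T) / √(Real.log T) : ℝ) : ℂ))) /
            (family N a s X).card - Complex.exp (ζ ^ 2 / 2)‖ < ε) ∧
        -- B. the levels
        (∀ c : ℝ, (c < n / 2 → FirstX (level α N a s γ c) 0) ∧ (c = n / 2 → FirstX (level α N a s γ c) (1 / 2)) ∧
          (n / 2 < c → FirstX (level α N a s γ c) 1)) ∧
        -- C. the orders of vanishing
        ∀ L : ℤ → ℂ → ℂ,
          (∀ d : ℤ, InClass N a s d → IsTwist α d (L d) ∧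
            ∀ x : ℝ, 1 / 2 ≤ x → x ≤ 1 → MeromorphicAt (L d) (x : ℂ)) →
          ∃ m : ℤ → ℤ,
            (∀ d : ℤ, InClass N a s d → meromorphicOrderAt (L d) (1 / 2) = m d ∧
              Tendsto (fun T : ℝ => S α γ d T / Real.log T) atTop (𝓝 (m d : ℝ))) ∧
            (∀ c : ℝ, (∀ d : ℤ, InClass N a s d → (m d : ℝ) ≠ c) → ∀ X : ℕ,
              Tendsto (level α N a s γ c X) atTop (𝓝 (proportion N a s X fun d => (m d : ℝ) ≤ c))) ∧
            -- D. root number `1`
            (n = 1 → (∀ d, InClass N a s d → 0 ≤ m d ∧ Even (m d)) → ∀ c : ℝ, 0 < c → c < 2 →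
              (Tendsto (fun X => proportion N a s X fun d => m d = 0) atTop (𝓝 1) ↔ FirstT (level α N a s γ c) 1) ∧
              (1 / 2 < c → FirstX (level α N a s γ c) 1)) ∧
            -- E. root number `-1`
            (n = 1 → (∀ d, InClass N a s d → 0 ≤ m d ∧ Odd (m d)) → ∀ c : ℝ,
              (1 / 2 < c → c < 1 → FirstX (level α N a s γ c) 1 ∧ FirstT (level α N a s γ c) 0) ∧
              (1 < c → c < 3 → FirstX (level α N a s γ c) 1 ∧
                (Tendsto (fun X => proportion N a s X fun d => m d = 1) atTop (𝓝 1) ↔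
                  FirstT (level α N a s γ c) 1)))) ∧
    -- II. the curves `y² = x³ + A x`: there is no hypothesis
    ∀ A : ℤ, A ≠ 0 → (∃ α : Nat.Primes → Fin 2 → ℂ, IsSatake A α) ∧
      ∀ α : Nat.Primes → Fin 2 → ℂ, IsSatake A α → ∃ L : ℤ → ℂ → ℂ,
        -- the `L`-series of the twists are entire
        (∀ d : ℤ, Squarefree d → Differentiable ℂ (L d) ∧ IsTwist α d (L d)) ∧
        ∃ m : ℤ → ℕ, ∀ (N : ℕ) (a s : ℤ), N ≠ 0 → 2 ∣ N → (∀ p : ℕ, p.Prime → p ∣ N → (p : ℤ) ∣ 6 * A) →
          IsCoprime a (N : ℤ) → (s = 1 ∨ s = -1) → ∀ γ : ℝ, Real.pi / 2 < γ →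
            -- A. the normal law
            (∀ v : ℝ, FirstX (fun X T => proportion N a s X fun d =>
              (S α γ d T - 1 / 2 * Real.log T) / √(Real.log T) ≤ v) (Phi v)) ∧
            (∀ (ζ : ℂ) (ε : ℝ), 0 < ε → ∀ᶠ T : ℝ in atTop, ∀ᶠ X : ℕ in atTop,
              ‖(∑ d ∈ family N a s X, Complex.exp (ζ * (((S α γ d T - 1 / 2 * Real.log T) / √(Real.log T) : ℝ) : ℂ))) /
                (family N a s X).card - Complex.exp (ζ ^ 2 / 2)‖ < ε) ∧
            -- B. the levels
            (∀ c : ℝ, (c < 1 / 2 → FirstX (level α N a s γ c) 0) ∧ (c = 1 / 2 → FirstX (level α N a s γ c) (1 / 2)) ∧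
              (1 / 2 < c → FirstX (level α N a s γ c) 1)) ∧
            -- C. the orders of vanishing
            (∀ d : ℤ, InClass N a s d → analyticOrderAt (L d) (1 / 2) = m d ∧
              Tendsto (fun T : ℝ => S α γ d T / Real.log T) atTop (𝓝 (m d : ℝ))) ∧
            (∀ c : ℝ, (∀ d : ℤ, InClass N a s d → (m d : ℝ) ≠ c) → ∀ X : ℕ,
              Tendsto (level α N a s γ c X) atTop (𝓝 (proportion N a s X fun d => (m d : ℝ) ≤ c))) ∧
            -- D. root number `1`
            ((∀ d, InClass N a s d → Even (m d)) → ∀ c : ℝ, 0 < c → c < 2 →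
              (Tendsto (fun X => proportion N a s X fun d => m d = 0) atTop (𝓝 1) ↔ FirstT (level α N a s γ c) 1) ∧
              (1 / 2 < c → FirstX (level α N a s γ c) 1)) ∧
            -- E. root number `-1`
            ((∀ d, InClass N a s d → Odd (m d)) → ∀ c : ℝ,
              (1 / 2 < c → c < 1 → FirstX (level α N a s γ c) 1 ∧ FirstT (level α N a s γ c) 0) ∧
              (1 < c → c < 3 → FirstX (level α N a s γ c) 1 ∧
                (Tendsto (fun X => proportion N a s X fun d => m d = 1) atTop (𝓝 1) ↔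
                  FirstT (level α N a s γ c) 1))) := by
  refine ⟨fun r N a s α hN hN2 ha hs hα hα0 γ d hd T hT => abs_conv N hN hN2 a s ha hs α hα hα0 γ d hd T hT,
    fun r N a s α hN hN2 ha hs hα hα0 hre F₂ h1 h2 G h3 h4 h5 γ hγ =>
      (general N hN hN2 a s ha hs α hα hα0 hre F₂ h1 h2 G h3 h4 h5 γ hγ).2,
    fun A hA => ⟨⟨alE A 0, (sat_iff A _).2 (Cg.sat_ex A)⟩, fun α hα => ?_⟩⟩
  have hS := (sat_iff A α).1 hα
  obtain ⟨F₂, f1, f2, f3⟩ := Cg.sat_square hA hS
  obtain ⟨G, g1, g2, g3⟩ := Cg.sat_pair hA hS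
  obtain ⟨L, hL⟩ := Cg.sat_twist hA hS
  set m : ℤ → ℕ := fun d => (analyticOrderAt (L d) (1 / 2)).toNat with hmd
  refine ⟨L, hL, m, fun N a s hN hN2 hN6 ha hs γ hγ => ?_⟩
  obtain ⟨-, n, hn, h1, -, h2, h3, h4⟩ := general N hN hN2 a s ha hs α (Cg.sat_bd hS)
    (fun p hp i => (hS p).1 (hN6 p p.2 hp) i) (Cg.sat_re hS) F₂ f3 f1 G g3 g1 g2 γ hγ
  have hn1 : n = 1 := by
    rw [f2] at hn
    exact_mod_cast hn.symm
  subst hn1
  obtain ⟨m', k1, k2, k3, k4⟩ := h4 L fun d hd =>
    ⟨(hL d hd.1).2, fun x _ _ => ((hL d hd.1).1.analyticAt x).meromorphicAt⟩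
  have hord : ∀ d : ℤ, InClass N a s d → analyticOrderAt (L d) (1 / 2) = m d ∧ m' d = m d := by
    intro d hd
    have hk := (k1 d hd).1
    rw [((hL d hd.1).1.analyticAt (1 / 2)).meromorphicOrderAt_eq] at hk
    obtain ⟨n, hn⟩ : ∃ n : ℕ, analyticOrderAt (L d) (1 / 2) = n := by
      by_cases h5 : analyticOrderAt (L d) (1 / 2) = ⊤
      · rw [h5, ENat.map_top] at hk
        exact absurd hk (by simp)
      · obtain ⟨n, hn⟩ := ENat.ne_top_iff_exists.1 h5
        exact ⟨n, hn.symm⟩
    have hmn : m d = n := by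
      rw [hmd]
      simp only
      rw [hn]
      rfl
    rw [hn] at hk
    simp only [ENat.map_coe] at hk
    have h6 : (n : ℤ) = m' d := by exact_mod_cast hk
    rw [hmn]
    exact ⟨hn, h6.symm⟩
  have hp : ∀ (Q : ℤ → Prop) (X : ℕ), (proportion N a s X fun d => Q (m' d)) = proportion N a s X fun d => Q (m d) :=
    fun Q X => prop_congr2 N a s X fun d hd => by rw [(hord d hd).2]
  have hp1 : ∀ (k : ℕ) (X : ℕ), (proportion N a s X fun d => m' d = (k : ℤ)) = proportion N a s X fun d => m d = k :=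
    fun k X => prop_congr2 N a s X fun d hd => by
      rw [(hord d hd).2]
      exact Nat.cast_inj
  simp only [Int.cast_one] at h1 h2 h3
  refine ⟨h1, h2, h3, fun d hd => ⟨(hord d hd).1, ?_⟩, fun c hc X => ?_, fun he c hc hc' => ?_, fun ho c => ?_⟩
  · have h5 := (k1 d hd).2
    rw [(hord d hd).2] at h5
    exact_mod_cast h5
  · have h5 := k2 c (fun d hd => by
      rw [(hord d hd).2]
      exact_mod_cast hc d hd) X
    have h6 := hp (fun k => (k : ℝ) ≤ c) X
    rw [h6] at h5
    exact_mod_cast h5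
  · obtain ⟨j1, j2⟩ := k3 rfl (fun d hd => by
      rw [(hord d hd).2]
      exact ⟨Int.natCast_nonneg _, (Int.even_coe_nat _).2 (he d hd)⟩) c hc hc'
    refine ⟨?_, j2⟩
    rw [← j1]
    have h6 := hp1 0
    push_cast at h6
    simp only [h6]
  · obtain ⟨j1, j2⟩ := k4 rfl (fun d hd => by
      rw [(hord d hd).2]
      exact ⟨Int.natCast_nonneg _, (Int.odd_coe_nat _).2 (ho d hd)⟩) c
    refine ⟨j1, fun hc hc' => ?_⟩
    obtain ⟨i1, i2⟩ := j2 hc hc'
    refine ⟨i1, ?_⟩
    rw [← i2]
    have h6 := hp1 1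
    push_cast at h6
    simp only [h6]

end Pool.Agent.Results.MP_50bb2e_nt.NormalLawInClasses
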