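import Pool.Agent.X278.AV.Uni2
import Pool.Agent.X278.AV.CgF

/-!
# Quadratic twists with prescribed local components: the two iterated limits differ by one half

Let `π` be a cuspidal automorphic representation of `GL_r` over `ℚ` (for instance `r = 2`) which satisfies the Ramanujan
conjecture, with Satake parameters `α_{p,1}, …, α_{p,r}` at the primes `p ∤ N`, where `N` is even and divisible by the
ramified primes. In fact we allow arbitrary numbers `α_{p,i}` of absolute value at most `1`. Fix `γ > π/2`. For a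
squarefree integer `d` with the quadratic character `χ_d = (d/·)` put

`S_d(T) = ∑_{p ∤ N} log |∏_i (1 - χ_d(p) α_{p,i} p^{-1/2})| · cos(γ u) / Γ(1 + u)`, `u = log p / T`,

an absolutely convergent sum over the primes. For every single `d`, `S_d(T) / log T` tends to the order of vanishing
`m(d)` of `L(s, π ⊗ χ_d)` at `s = 1/2` as `T → ∞`, with no hypothesis on zeros.

Let `d` run over the squarefree integers of a fixed sign in a fixed class `a` modulo `N`, `gcd(a, N) = 1`: these are the
quadratic characters with prescribed (unramified) local components at the places dividing `N ∞`, and the root number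
`ε(π ⊗ χ_d)` is constant on the family. Let `n` be the order at `s = 1` of the product of the `(1 - α_{p,i}² p^{-s})⁻¹`
(`n = 1` if `π` is a representation of `PGL_2`, e.g. an elliptic curve; `n = 1, 0, -1` if `π` is symplectic, not
self-dual, orthogonal). We show

* for every fixed `T` the average of `S_d(T)` has a limit `M(T)`, and `M(T) = (n/2) log T + C + O(1/T)`: this does not
  see the root number;
* for large `T` all but a proportion `≤ V / (δ² log T)` of the `d` satisfy `|S_d(T) / log T - n/2| ≤ δ`;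
* for every real `c`: the average of the orders `m(d)` tends to `n/2 + c` IF AND ONLY IF
  `lim_X lim_T = lim_T lim_X + c` for the averages of `S_d(T) / log T`;
* for `n = 1` and root number `-1` (all `m(d)` odd) the two limits can NEVER be interchanged; the average of the `m(d)`
  has the predicted value `1` if and only if the two iterated limits differ by exactly `1/2`, and then `m(d) = 1` for
  `100 %` of the `d`; for root number `1` (all `m(d)` even) the same holds with the values `0`, `-1/2` and `m(d) = 0`.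
All this is unconditional for the `π` of an elliptic curve `y² = x³ + A x`, `A ≠ 0` (part II of the theorem): for these we
prove the properties of the series which are used, and that the `L`-series of the twists are entire.
-/

set_option autoImplicit false

open Filter Topology Asymptotics

namespace Pool.Agent.Results.MP_50bb2e_nt.RootNumberClasses

/-- The weight `cos(γu) / Γ(1 + u)`. -/
noncomputable def weight (γ u : ℝ) : ℝ := Real.cos (γ * u) / Real.Gamma (1 + u)

/-- `d` is squarefree, of the sign `s`, and `d ≡ a` modulo `N`. -/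
def InClass (N : ℕ) (a s d : ℤ) : Prop := Squarefree d ∧ 0 < s * d ∧ (N : ℤ) ∣ d - a

/-- The members of the class with `|d| ≤ X`. -/
noncomputable def family (N : ℕ) (a s : ℤ) (X : ℕ) : Finset ℤ :=
  open Classical in (Finset.Icc (-(X : ℤ)) X).filter (InClass N a s)

/-- The average of a function over the members of the class with `|d| ≤ X`. -/
noncomputable def average (N : ℕ) (a s : ℤ) (X : ℕ) (f : ℤ → ℝ) : ℝ :=
  (∑ d ∈ family N a s X, f d) / (family N a s X).card

/-- The proportion of the members of the class with `|d| ≤ X` which have a property. -/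
noncomputable def proportion (N : ℕ) (a s : ℤ) (X : ℕ) (P : ℤ → Prop) : ℝ :=
  open Classical in (((family N a s X).filter P).card : ℝ) / (family N a s X).card

/-- `lim_X lim_T R(X, T) = lim_T lim_X R(X, T) + c`. -/
def LimitsDiffer (R : ℕ → ℝ → ℝ) (c : ℝ) : Prop :=
  Tendsto (fun X : ℕ => limUnder atTop (R X)) atTop
    (𝓝 ((limUnder atTop fun T : ℝ => limUnder atTop fun X : ℕ => R X T) + c))

section

variable {r : ℕ} (α : Nat.Primes → Fin r → ℂ)

/-- The term `log |∏ (1 - (d/p) α_{p,i} p^{-1/2})| cos(γu) / Γ(1 + u)`, `u = log p / T`. -/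
noncomputable def term (γ : ℝ) (d : ℤ) (T : ℝ) (p : Nat.Primes) : ℝ :=
  (∑ i, Real.log ‖1 - ((jacobiSym d p : ℤ) : ℂ) * α p i / ((√((p : ℕ) : ℝ) : ℝ) : ℂ)‖) *
    weight γ (Real.log (p : ℕ) / T)

/-- `S_d(T)`. -/
noncomputable def S (γ : ℝ) (d : ℤ) (T : ℝ) : ℝ := ∑' p, term α γ d T p

/-- `R(X, T)`, the average of `S_d(T) / log T` over the members of the class with `|d| ≤ X`. -/
noncomputable def R (N : ℕ) (a s : ℤ) (γ : ℝ) (X : ℕ) (T : ℝ) : ℝ :=
  average N a s X fun d => S α γ d T / Real.log T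

/-- `L` is the product of the `(1 - (d/p) α_{p,i} p^{-s})⁻¹` for `Re s > 1`. -/
def IsTwist (d : ℤ) (L : ℂ → ℂ) : Prop := ∀ s : ℂ, 1 < s.re → HasProd (fun p : Nat.Primes =>
  ∏ i, (1 - ((jacobiSym d p : ℤ) : ℂ) * α p i * ((p : ℕ) : ℂ) ^ (-s))⁻¹) (L s)

/-- `F₂` is the product of the `(1 - α_{p,i}² p^{-s})⁻¹` for `Re s > 1`. -/
def IsSquareSeries (F₂ : ℂ → ℂ) : Prop := ∀ s : ℂ, 1 < s.re → HasProd (fun p : Nat.Primes =>
  ∏ i, (1 - α p i ^ 2 * ((p : ℕ) : ℂ) ^ (-s))⁻¹) (F₂ s)

end

/-- `N_p`, the number of affine points of `y² = x³ + A x` modulo `p`. -/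
noncomputable def points (A : ℤ) (p : ℕ) : ℕ :=
  Nat.card {P : ZMod p × ZMod p // P.2 ^ 2 = P.1 ^ 3 + (A : ZMod p) * P.1}

/-- `α_{p,1}`, `α_{p,2}` are the normalised eigenvalues of Frobenius of `y² = x³ + A x` for `p ∤ 6 A`: their sum is
`(p - N_p) / √p`, their product is `1`. They are `0` for `p ∣ 6 A`. -/
def IsSatake (A : ℤ) (α : Nat.Primes → Fin 2 → ℂ) : Prop := ∀ p : Nat.Primes,
  (((p : ℕ) : ℤ) ∣ 6 * A → ∀ i, α p i = 0) ∧
  (¬ ((p : ℕ) : ℤ) ∣ 6 * A →
    α p 0 + α p 1 = (((p : ℕ) : ℂ) - points A (p : ℕ)) / ((√((p : ℕ) : ℝ) : ℝ) : ℂ) ∧ α p 0 * α p 1 = 1)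

open Pool.Agent.X278.AV Pool.Agent.X278.OP

theorem sq_one {s : ℤ} (hs : s = 1 ∨ s = -1) : s * s = 1 := by
  rcases hs with h | h <;> rw [h] <;> norm_num

theorem s_inj {s : ℤ} (hs : s = 1 ∨ s = -1) : Function.Injective fun m : ℕ => s * (m : ℤ) := by
  intro m n h
  have h1 : s * (s * (m : ℤ)) = s * (s * (n : ℤ)) := congrArg (fun z => s * z) h
  rw [← mul_assoc, ← mul_assoc, sq_one hs, one_mul, one_mul] at h1
  exact_mod_cast h1

theorem family_eq (N : ℕ) (a : ℤ) {s : ℤ} (hs : s = 1 ∨ s = -1) (X : ℕ) :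
    family N a s X = (SF N ((s * a : ℤ) : ZMod N) X).map ⟨fun m : ℕ => s * (m : ℤ), s_inj hs⟩ := by
  classical
  ext d
  unfold family SF InClass
  simp only [Finset.mem_filter, Finset.mem_map, Finset.mem_Icc]
  constructor
  · rintro ⟨⟨h1, h2⟩, h3, h4, h5⟩
    have h6 : ((s * d).toNat : ℤ) = s * d := Int.toNat_of_nonneg h4.le
    have h7 : s * ((s * d).toNat : ℤ) = d := by rw [h6, ← mul_assoc, sq_one hs, one_mul]
    refine ⟨(s * d).toNat, ?_, h7⟩
    refine ⟨⟨?_, ?_⟩, ?_, ?_⟩
    · have : (1 : ℤ) ≤ ((s * d).toNat : ℤ) := by rw [h6]; exact h4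
      exact_mod_cast this
    · have : ((s * d).toNat : ℤ) ≤ X := by
        rw [h6]
        rcases hs with h | h <;> rw [h] <;> linarith
      exact_mod_cast this
    · have h8 : Squarefree ((s * d).toNat : ℤ) := by
        rw [h6]
        refine (Squarefree.of_mul_left (n := s) ?_)
        have e1 : s * d * s = d := by rw [mul_comm s d, mul_assoc, sq_one hs, mul_one]
        rw [e1]
        exact h3
      exact Int.squarefree_natCast.1 h8
    · have h9 : (((s * d).toNat : ℕ) : ZMod N) = ((s * d : ℤ) : ZMod N) := by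
        rw [← h6]
        push_cast
        rfl
      rw [h9]
      have h10 : ((d - a : ℤ) : ZMod N) = 0 := (ZMod.intCast_zmod_eq_zero_iff_dvd _ _).2 h5
      push_cast at h10 ⊢
      rw [sub_eq_zero.1 h10]
  · rintro ⟨m, hm, rfl⟩
    obtain ⟨⟨h1, h2⟩, h3, h4⟩ := hm
    have h1' : (1 : ℤ) ≤ m := by exact_mod_cast h1
    have h2' : (m : ℤ) ≤ X := by exact_mod_cast h2
    show (-(X : ℤ) ≤ s * m ∧ s * m ≤ X) ∧ Squarefree (s * (m : ℤ)) ∧ 0 < s * (s * (m : ℤ)) ∧ (N : ℤ) ∣ s * m - a
    refine ⟨?_, ?_, ?_, ?_⟩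
    · rcases hs with h | h <;> rw [h] <;> constructor <;> linarith
    · refine Squarefree.of_mul_left (n := s) ?_
      have e1 : s * (m : ℤ) * s = m := by rw [mul_comm s (m : ℤ), mul_assoc, sq_one hs, mul_one]
      rw [e1]
      exact Int.squarefree_natCast.2 h3
    · rw [← mul_assoc, sq_one hs, one_mul]
      linarith
    · rw [← ZMod.intCast_zmod_eq_zero_iff_dvd]
      push_cast at h4 ⊢
      rw [h4, ← mul_assoc]
      have : ((s : ℤ) : ZMod N) * (s : ZMod N) = 1 := by
        have := congrArg (fun z : ℤ => (z : ZMod N)) (sq_one hs)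
        push_cast at this
        exact this
      rw [this, one_mul, sub_self]

theorem unit_class {N : ℕ} {a s : ℤ} (ha : IsCoprime a (N : ℤ)) (hs : s = 1 ∨ s = -1) :
    IsUnit ((s * a : ℤ) : ZMod N) := by
  push_cast
  refine IsUnit.mul ?_ ?_
  · rcases hs with h | h <;> rw [h] <;> simp
  · obtain ⟨x, y, h⟩ := ha
    have h1 := congrArg (fun z : ℤ => (z : ZMod N)) h
    push_cast at h1
    rw [ZMod.natCast_self, mul_zero, add_zero] at h1
    exact IsUnit.of_mul_eq_one_right _ h1

theorem jac (p : Nat.Primes) (d : ℤ) : jacobiSym d p = quadraticChar (ZMod p) ((d : ℤ) : ZMod p) := by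
  rw [← jacobiSym.legendreSym.to_jacobiSym]
  rfl

section

variable {r : ℕ} {α : Nat.Primes → Fin r → ℂ}

open Classical in
theorem term_eq {N : ℕ} (hα0 : ∀ p : Nat.Primes, (p : ℕ) ∣ N → ∀ i, α p i = 0) (γ : ℝ) (s : ℤ) (m : ℕ) (T : ℝ)
    (p : Nat.Primes) : term α γ (s * m) T p = (if (p : ℕ) ∣ N then 0 else gU α s p ((m : ℕ) : ZMod p)) *
      (Real.cos (γ * (Real.log (p : ℕ) / T)) / Real.Gamma (1 + Real.log (p : ℕ) / T)) := by
  unfold term weight
  congr 1
  by_cases h : (p : ℕ) ∣ N
  · rw [if_pos h]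
    refine Finset.sum_eq_zero fun i _ => ?_
    rw [hα0 p h i]
    simp
  · rw [if_neg h]
    unfold gU
    rw [jac]
    push_cast
    rfl

/-- one sequence of integers: the least values allowed have density one -/
theorem density {N : ℕ} {a s : ℤ} {b : ℤ} (hne : ∀ᶠ X in atTop, (family N a s X).Nonempty) {m : ℤ → ℤ}
    (h0 : ∀ d, InClass N a s d → m d = b ∨ b + 2 ≤ m d)
    (ha : Tendsto (fun X : ℕ => average N a s X fun d => m d) atTop (𝓝 b)) :
    Tendsto (fun X => proportion N a s X fun d => m d = b) atTop (𝓝 1) := by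
  classical
  have key : ∀ᶠ X in atTop, 1 - ((average N a s X fun d => m d) - b) / 2 ≤ proportion N a s X (fun d => m d = b) ∧
      proportion N a s X (fun d => m d = b) ≤ 1 := by
    filter_upwards [hne] with X hX
    have hc : (0 : ℝ) < (family N a s X).card := by exact_mod_cast hX.card_pos
    have hp : ∀ P : ℤ → Prop, proportion N a s X P =
        (∑ d ∈ family N a s X, if P d then (1 : ℝ) else 0) / (family N a s X).card := by
      intro P
      unfold proportion
      congr 1
      rw [Finset.sum_boole]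
    constructor
    · rw [hp]
      unfold average
      have e1 : 1 - ((∑ d ∈ family N a s X, (m d : ℝ)) / (family N a s X).card - b) / 2 =
          (∑ d ∈ family N a s X, (1 - ((m d : ℝ) - b) / 2)) / (family N a s X).card := by
        rw [Finset.sum_sub_distrib, ← Finset.sum_div, Finset.sum_sub_distrib, Finset.sum_const, Finset.sum_const,
          nsmul_eq_mul, nsmul_eq_mul]
        field_simp
      rw [e1]
      apply div_le_div_of_nonneg_right _ hc.le
      refine Finset.sum_le_sum fun d hd => ?_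
      have hd' : InClass N a s d := (Finset.mem_filter.1 hd).2
      rcases h0 d hd' with h | h
      · rw [if_pos h, h]
        simp
      · have h1 : ¬ (m d = b) := by omega
        rw [if_neg h1]
        have h2 : (b : ℝ) + 2 ≤ m d := by exact_mod_cast h
        linarith
    · rw [hp, div_le_one hc]
      refine (Finset.sum_le_sum (g := fun _ => (1 : ℝ)) fun d _ => ?_).trans ?_
      · split_ifs <;> norm_num
      · rw [Finset.sum_const, nsmul_eq_mul, mul_one]
  refine tendsto_of_tendsto_of_tendsto_of_le_of_le' (g := fun X => 1 - ((average N a s X fun d => m d) - b) / 2)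
    (h := fun _ => 1) ?_ tendsto_const_nhds (key.mono fun X h => h.1) (key.mono fun X h => h.2)
  have h1 := ((ha.sub_const (b : ℝ)).div_const 2).const_sub 1
  simpa using h1

end

theorem abs_conv {r : ℕ} (N : ℕ) (a s : ℤ) (hs : s = 1 ∨ s = -1)
    (α : Nat.Primes → Fin r → ℂ) (hα : ∀ p i, ‖α p i‖ ≤ 1) (hα0 : ∀ p : Nat.Primes, (p : ℕ) ∣ N → ∀ i, α p i = 0)
    (γ : ℝ) (d : ℤ) (hd : InClass N a s d) (T : ℝ) (hT : 0 < T) : Summable fun p => |term α γ d T p| := by
  classical
  set f : Nat.Primes → ℕ → ℝ := fun p m => if (p : ℕ) ∣ N then 0 else gU α s p ((m : ℕ) : ZMod p) with hf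
  have hB : (0 : ℝ) ≤ 4 * r := by positivity
  have hfb : ∀ p m, |f p m| ≤ (4 * r) / √((p : ℕ) : ℝ) := by
    intro p m
    rw [hf]
    simp only
    by_cases h : (p : ℕ) ∣ N
    · rw [if_pos h, abs_zero]
      positivity
    · rw [if_neg h]
      exact gU_bd hα s p _
  obtain ⟨m, rfl⟩ : ∃ m : ℕ, d = s * m := by
    refine ⟨(s * d).toNat, ?_⟩
    rw [Int.toNat_of_nonneg hd.2.1.le, ← mul_assoc, sq_one hs, one_mul]
  refine (re_SL hfb hB γ hT m).1.congr fun p => ?_
  rw [term_eq hα0 γ s m T p]

/-- The two iterated limits in a class of constant root number. -/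
theorem general {r : ℕ} (N : ℕ) (hN : N ≠ 0) (hN2 : 2 ∣ N) (a s : ℤ) (ha : IsCoprime a (N : ℤ)) (hs : s = 1 ∨ s = -1)
    (α : Nat.Primes → Fin r → ℂ) (hα : ∀ p i, ‖α p i‖ ≤ 1) (hα0 : ∀ p : Nat.Primes, (p : ℕ) ∣ N → ∀ i, α p i = 0)
    (F₂ : ℂ → ℂ) (hF₂ : IsSquareSeries α F₂) (hm₂ : MeromorphicAt F₂ 1) (γ : ℝ) (hγ : Real.pi / 2 < γ) :
    -- absolute convergence
    (∀ d : ℤ, InClass N a s d → ∀ T : ℝ, 0 < T → Summable fun p => |term α γ d T p|) ∧
    ∃ (n : ℤ) (M : ℝ → ℝ) (C V : ℝ), meromorphicOrderAt F₂ 1 = n ∧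
      -- A. the average for fixed `T`
      (∀ T : ℝ, 0 < T → Tendsto (fun X : ℕ => average N a s X fun d => S α γ d T) atTop (𝓝 (M T))) ∧
      (fun T : ℝ => M T - (n / 2 * Real.log T + C)) =O[atTop] (fun T : ℝ => 1 / T) ∧
      -- B. almost all twists
      (∀ δ : ℝ, 0 < δ → ∀ᶠ T : ℝ in atTop, ∀ᶠ X : ℕ in atTop,
        proportion N a s X (fun d => δ < |S α γ d T / Real.log T - n / 2|) ≤ V / (δ ^ 2 * Real.log T)) ∧
      -- C. one twist; the averages of the orders of vanishing
      ∀ L : ℤ → ℂ → ℂ,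
        (∀ d : ℤ, InClass N a s d → IsTwist α d (L d) ∧
          ∀ x : ℝ, 1 / 2 ≤ x → x ≤ 1 → MeromorphicAt (L d) (x : ℂ)) →
        ∃ m : ℤ → ℤ,
          (∀ d : ℤ, InClass N a s d → meromorphicOrderAt (L d) (1 / 2) = m d ∧
            Tendsto (fun T : ℝ => S α γ d T / Real.log T) atTop (𝓝 (m d : ℝ))) ∧
          (∀ X : ℕ, Tendsto (R α N a s γ X) atTop (𝓝 (average N a s X fun d => m d))) ∧
          (∀ T : ℝ, 0 < T → Tendsto (fun X => R α N a s γ X T) atTop (𝓝 (M T / Real.log T))) ∧
          Tendsto (fun T : ℝ => M T / Real.log T) atTop (𝓝 (n / 2 : ℝ)) ∧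
          (∀ c : ℝ, Tendsto (fun X : ℕ => average N a s X fun d => m d) atTop (𝓝 (n / 2 + c)) ↔
            LimitsDiffer (R α N a s γ) c) ∧
          -- D. root number `1`
          (n = 1 → (∀ d, InClass N a s d → 0 ≤ m d ∧ Even (m d)) →
            (Tendsto (fun X : ℕ => average N a s X fun d => m d) atTop (𝓝 0) ↔
              LimitsDiffer (R α N a s γ) (-1 / 2)) ∧
            (LimitsDiffer (R α N a s γ) (-1 / 2) →
              Tendsto (fun X => proportion N a s X fun d => m d = 0) atTop (𝓝 1))) ∧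
          -- E. root number `-1`
          (n = 1 → (∀ d, InClass N a s d → 0 ≤ m d ∧ Odd (m d)) →
            ¬ LimitsDiffer (R α N a s γ) 0 ∧ (∀ c : ℝ, LimitsDiffer (R α N a s γ) c → 1 / 2 ≤ c) ∧
            (Tendsto (fun X : ℕ => average N a s X fun d => m d) atTop (𝓝 1) ↔
              LimitsDiffer (R α N a s γ) (1 / 2)) ∧
            (LimitsDiffer (R α N a s γ) (1 / 2) →
              Tendsto (fun X => proportion N a s X fun d => m d = 1) atTop (𝓝 1))) := by
  classical
  have : NeZero N := ⟨hN⟩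
  have hu := unit_class ha hs
  set f : Nat.Primes → ℕ → ℝ := fun p m => if (p : ℕ) ∣ N then 0 else gU α s p ((m : ℕ) : ZMod p) with hf
  have hB : (0 : ℝ) ≤ 4 * r := by positivity
  have L₀ := SF_loc hu (g := fun p => gU α s p) (gU_zero α s) hB (fun p _ x => gU_bd hα s p x)
  obtain ⟨n, C, hn, hC⟩ := uni_asc hα hN2 hα0 hs hF₂ hm₂ hγ
  set e : Nat.Primes → ℝ := fun p => if (p : ℕ) ∣ N then 0 else Eu (p : ℕ) (gU α s p) with he
  obtain ⟨V, hV⟩ := L₀.llnL hB hC
  have hfb : ∀ p m, |f p m| ≤ (4 * r) / √((p : ℕ) : ℝ) := by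
    intro p m
    rw [hf]
    simp only
    by_cases h : (p : ℕ) ∣ N
    · rw [if_pos h, abs_zero]
      positivity
    · rw [if_neg h]
      exact gU_bd hα s p _
  have hre := fun (T : ℝ) (hT : 0 < T) (m : ℕ) => re_SL hfb hB γ hT m
  have hS : ∀ (T : ℝ), 0 < T → ∀ m : ℕ, S α γ (s * m) T = (SL f γ T m).re := by
    intro T hT m
    rw [(hre T hT m).2]
    unfold S
    exact tsum_congr fun p => term_eq hα0 γ s m T p
  have hcard : ∀ X, (family N a s X).card = (SF N ((s * a : ℤ) : ZMod N) X).card := by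
    intro X
    rw [family_eq N a hs, Finset.card_map]
  have hne : ∀ᶠ X in atTop, (family N a s X).Nonempty := by
    filter_upwards [L₀.ne] with X hX
    rw [← Finset.card_pos, hcard]
    exact hX.card_pos
  have hform : ∀ d, InClass N a s d → ∃ m : ℕ, d = s * m := by
    intro d hd
    refine ⟨(s * d).toNat, ?_⟩
    rw [Int.toNat_of_nonneg hd.2.1.le, ← mul_assoc, sq_one hs, one_mul]
  have hfirst : ∀ T : ℝ, 0 < T → Tendsto (fun X : ℕ => average N a s X fun d => S α γ d T) atTop
      (𝓝 (AL e γ T).re) := by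
    intro T hT
    have h1 := (Complex.continuous_re.tendsto _).comp (L₀.firstL hB γ hT)
    refine h1.congr fun X => ?_
    unfold meanC average
    simp only [Function.comp_apply]
    rw [Complex.div_natCast_re, Complex.re_sum, hcard, family_eq N a hs, Finset.sum_map]
    congr 1
    exact Finset.sum_congr rfl fun m _ => (hS T hT m).symm
  have hRX : ∀ T : ℝ, 0 < T → Tendsto (fun X => R α N a s γ X T) atTop (𝓝 ((AL e γ T).re / Real.log T)) := by
    intro T hT
    refine ((hfirst T hT).div_const (Real.log T)).congr fun X => ?_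
    unfold R average
    rw [← Finset.sum_div]
    ring
  have hlim : Tendsto (fun T : ℝ => (AL e γ T).re / Real.log T) atTop (𝓝 (n / 2 : ℝ)) := by
    have h1 := (Complex.continuous_re.tendsto _).comp hC.lim
    rw [Complex.ofReal_re] at h1
    refine h1.congr fun T => ?_
    simp only [Function.comp_apply]
    rw [Complex.div_ofReal_re]
  refine ⟨fun d hd T hT => ?_, n, fun T => (AL e γ T).re, (C - ((n / 2 : ℝ) : ℂ) * Pool.Agent.W187.UR.Lam γ).re, V, hn, hfirst, ?_, ?_,
    fun L hL => ?_⟩
  · obtain ⟨m, rfl⟩ := hform d hd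
    refine (hre T hT m).1.congr fun p => ?_
    rw [term_eq hα0 γ s m T p]
  · unfold Asc at hC
    refine IsBigO.trans (IsBigO.of_bound 1 ?_) hC
    filter_upwards with T
    rw [one_mul, Real.norm_eq_abs]
    have e1 : (AL e γ T).re - (n / 2 * Real.log T + (C - ((n / 2 : ℝ) : ℂ) * Pool.Agent.W187.UR.Lam γ).re) =
        (AL e γ T - (((n / 2 : ℝ) : ℂ) * (Real.log T - Pool.Agent.W187.UR.Lam γ) + C)).re := by
      simp only [Complex.sub_re, Complex.add_re, Complex.re_ofReal_mul, Complex.ofReal_re]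
      ring
    rw [e1]
    exact Complex.abs_re_le_norm _
  · intro δ hδ
    filter_upwards [hV δ hδ, eventually_gt_atTop (0 : ℝ)] with T hT hT0
    filter_upwards [hT, hne] with X hX hne
    have hc : (0 : ℝ) < (family N a s X).card := by exact_mod_cast hne.card_pos
    unfold proportion
    rw [div_le_iff₀ hc]
    rw [← hcard] at hX
    refine le_trans ?_ hX
    have h1 : ((family N a s X).filter fun d => δ < |S α γ d T / Real.log T - n / 2|).card ≤
        ((SF N ((s * a : ℤ) : ZMod N) X).filter fun m => δ < ‖SL f γ T m / Real.log T - ((n / 2 : ℝ) : ℂ)‖).card := by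
      rw [family_eq N a hs, Finset.filter_map, Finset.card_map]
      refine Finset.card_le_card fun m hm => ?_
      rw [Finset.mem_filter] at hm ⊢
      refine ⟨hm.1, lt_of_lt_of_le hm.2 ?_⟩
      have e1 : S α γ (s * m) T / Real.log T - n / 2 =
          (SL f γ T m / Real.log T - ((n / 2 : ℝ) : ℂ)).re := by
        rw [Complex.sub_re, Complex.div_ofReal_re, Complex.ofReal_re, hS T hT0]
      show |S α γ (s * m) T / Real.log T - n / 2| ≤ _
      rw [e1]
      exact Complex.abs_re_le_norm _
    exact_mod_cast h1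
  · have hgr : ∀ d : ℤ, InClass N a s d → ∃ m : ℤ, meromorphicOrderAt (L d) (1 / 2) = m ∧
        Tendsto (fun T : ℝ => S α γ d T / Real.log T) atTop (𝓝 (m : ℝ)) := by
      intro d hd
      obtain ⟨h1, h2⟩ := hL d hd
      obtain ⟨k, hk⟩ := hform d hd
      set β : Nat.Primes → Fin r → ℂ := fun p i => ((jacobiSym d p : ℤ) : ℂ) * α p i with hβd
      have hβ : ∀ p i, ‖β p i‖ ≤ 1 := by
        intro p i
        rw [hβd]
        simp only
        rw [norm_mul, jac]
        exact mul_le_one₀ (qc_norm p _) (norm_nonneg _) (hα p i)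
      obtain ⟨m, hm1, hm2⟩ := uni_growth hβ (F := L d) (fun s hs => h1 s hs) h2 hγ
      have e0 : ((1 / 2 : ℝ) : ℂ) = 1 / 2 := by push_cast; rfl
      rw [e0] at hm1
      refine ⟨m, hm1, ?_⟩
      refine hm2.lim.congr' ?_
      filter_upwards [eventually_gt_atTop (0 : ℝ)] with T hT
      congr 1
      rw [hk, hS T hT]
      unfold SL
      congr 1
      refine tsum_congr fun p => ?_
      congr 2
      rw [hf]
      simp only
      by_cases h : (p : ℕ) ∣ N
      · rw [if_pos h]
        unfold lf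
        refine Finset.sum_eq_zero fun i _ => ?_
        rw [hβd]
        simp only
        rw [hα0 p h i]
        simp
      · rw [if_neg h]
        unfold lf gU
        rw [hβd]
        simp only
        rw [jac, hk]
        push_cast
        rfl
    choose! m hm1 hm2 using hgr
    have hX : ∀ X : ℕ, Tendsto (R α N a s γ X) atTop (𝓝 (average N a s X fun d => m d)) := by
      intro X
      unfold average
      have h1 : Tendsto (fun T => ∑ d ∈ family N a s X, S α γ d T / Real.log T) atTop
          (𝓝 (∑ d ∈ family N a s X, (m d : ℝ))) :=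
        tendsto_finsetSum _ fun d hd => hm2 d (Finset.mem_filter.1 hd).2
      exact h1.div_const _
    have hiff : ∀ c : ℝ, Tendsto (fun X : ℕ => average N a s X fun d => m d) atTop (𝓝 (n / 2 + c)) ↔
        LimitsDiffer (R α N a s γ) c := by
      intro c
      unfold LimitsDiffer
      have h1 : (fun X : ℕ => limUnder atTop (R α N a s γ X)) = fun X : ℕ => average N a s X fun d => m d := by
        funext X
        exact (hX X).limUnder_eq
      have h2 : (limUnder atTop fun T : ℝ => limUnder atTop fun X : ℕ => R α N a s γ X T) = n / 2 := by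
        refine Tendsto.limUnder_eq ?_
        refine hlim.congr' ?_
        filter_upwards [eventually_gt_atTop (0 : ℝ)] with T hT
        exact (hRX T hT).limUnder_eq.symm
      rw [h1, h2]
    refine ⟨m, fun d hd => ⟨hm1 d hd, hm2 d hd⟩, hX, hRX, hlim, hiff, fun hn1 h0 => ?_, fun hn1 h0 => ?_⟩
    · have h1 := hiff (-1 / 2)
      have e1 : (n / 2 + -1 / 2 : ℝ) = 0 := by
        rw [hn1]
        norm_num
      rw [e1] at h1
      refine ⟨h1, fun h2 => ?_⟩
      have h3 := h1.2 h2
      have h4 := density (b := 0) hne (m := m) (fun d hd => by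
        obtain ⟨a1, k, a2⟩ := h0 d hd
        omega) (by simpa using h3)
      exact h4
    · have h1 := hiff (1 / 2)
      have e1 : (n / 2 + 1 / 2 : ℝ) = 1 := by
        rw [hn1]
        norm_num
      rw [e1] at h1
      have hge : ∀ᶠ X in atTop, 1 ≤ average N a s X fun d => m d := by
        filter_upwards [hne] with X hX
        have hc : (0 : ℝ) < (family N a s X).card := by exact_mod_cast hX.card_pos
        unfold average
        rw [le_div_iff₀ hc, one_mul]
        have h5 : ∑ _d ∈ family N a s X, (1 : ℝ) ≤ ∑ d ∈ family N a s X, (m d : ℝ) := by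
          refine Finset.sum_le_sum fun d hd => ?_
          obtain ⟨a1, k, a2⟩ := h0 d (Finset.mem_filter.1 hd).2
          have : 1 ≤ m d := by omega
          exact_mod_cast this
        rwa [Finset.sum_const, nsmul_eq_mul, mul_one] at h5
      have hc : ∀ c : ℝ, LimitsDiffer (R α N a s γ) c → 1 / 2 ≤ c := by
        intro c h2
        have h3 := (hiff c).2 h2
        have h4 := ge_of_tendsto h3 hge
        rw [hn1] at h4
        push_cast at h4
        linarith
      refine ⟨fun h2 => ?_, hc, h1, fun h2 => ?_⟩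
      · have := hc 0 h2
        norm_num at this
      · have h3 := h1.2 h2
        have h4 := density (b := 1) hne (m := m) (fun d hd => by
          obtain ⟨a1, k, a2⟩ := h0 d hd
          omega) (by simpa using h3)
        exact h4

/-! ### the curves `y² = x³ + A x` -/

theorem points_eq (A : ℤ) (p : ℕ) : ((Pool.Agent.Y19.QT.ap A 0 p : ℤ) : ℂ) = (p : ℂ) - points A p := by
  unfold points Pool.Agent.Y19.QT.ap
  simp only [Int.cast_zero, add_zero]
  push_cast
  rfl

theorem sat_iff (A : ℤ) (α : Nat.Primes → Fin 2 → ℂ) : IsSatake A α ↔ Cg.Sat A α := by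
  unfold IsSatake Cg.Sat
  simp only [points_eq]

theorem prop_congr2 (N : ℕ) (a s : ℤ) (X : ℕ) {P Q : ℤ → Prop} (h : ∀ d : ℤ, InClass N a s d → (P d ↔ Q d)) :
    proportion N a s X P = proportion N a s X Q := by
  classical
  unfold proportion
  congr 2
  refine congrArg Finset.card (Finset.filter_congr fun d hd => ?_)
  unfold family at hd
  exact h d (Finset.mem_filter.1 hd).2

theorem avg_congr2 (N : ℕ) (a s : ℤ) (X : ℕ) {f g : ℤ → ℝ} (h : ∀ d : ℤ, InClass N a s d → f d = g d) :
    average N a s X f = average N a s X g := by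
  classical
  unfold average
  congr 1
  refine Finset.sum_congr rfl fun d hd => ?_
  unfold family at hd
  exact h d (Finset.mem_filter.1 hd).2

/-- **The two iterated limits in a class of constant root number; unconditional results for the curves
`y² = x³ + A x`.** -/
theorem result :
    -- absolute convergence
    (∀ (r N : ℕ) (a s : ℤ) (α : Nat.Primes → Fin r → ℂ), (s = 1 ∨ s = -1) →
      (∀ p i, ‖α p i‖ ≤ 1) → (∀ p : Nat.Primes, (p : ℕ) ∣ N → ∀ i, α p i = 0) →
      ∀ (γ : ℝ) (d : ℤ), InClass N a s d → ∀ T : ℝ, 0 < T → Summable fun p => |term α γ d T p|) ∧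
    -- I. all systems of numbers `α`
    (∀ (r N : ℕ) (a s : ℤ) (α : Nat.Primes → Fin r → ℂ), N ≠ 0 → 2 ∣ N → IsCoprime a (N : ℤ) → (s = 1 ∨ s = -1) →
      (∀ p i, ‖α p i‖ ≤ 1) → (∀ p : Nat.Primes, (p : ℕ) ∣ N → ∀ i, α p i = 0) →
      ∀ F₂ : ℂ → ℂ, IsSquareSeries α F₂ → MeromorphicAt F₂ 1 → ∀ γ : ℝ, Real.pi / 2 < γ →
      ∃ (n : ℤ) (M : ℝ → ℝ) (C V : ℝ), meromorphicOrderAt F₂ 1 = n ∧
        -- A. the average for fixed `T`
        (∀ T : ℝ, 0 < T → Tendsto (fun X : ℕ => average N a s X fun d => S α γ d T) atTop (𝓝 (M T))) ∧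
        (fun T : ℝ => M T - (n / 2 * Real.log T + C)) =O[atTop] (fun T : ℝ => 1 / T) ∧
        -- B. almost all twists
        (∀ δ : ℝ, 0 < δ → ∀ᶠ T : ℝ in atTop, ∀ᶠ X : ℕ in atTop,
          proportion N a s X (fun d => δ < |S α γ d T / Real.log T - n / 2|) ≤ V / (δ ^ 2 * Real.log T)) ∧
        -- C. one twist; the averages of the orders of vanishing
        ∀ L : ℤ → ℂ → ℂ,
          (∀ d : ℤ, InClass N a s d → IsTwist α d (L d) ∧
            ∀ x : ℝ, 1 / 2 ≤ x → x ≤ 1 → MeromorphicAt (L d) (x : ℂ)) →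
          ∃ m : ℤ → ℤ,
            (∀ d : ℤ, InClass N a s d → meromorphicOrderAt (L d) (1 / 2) = m d ∧
              Tendsto (fun T : ℝ => S α γ d T / Real.log T) atTop (𝓝 (m d : ℝ))) ∧
            (∀ X : ℕ, Tendsto (R α N a s γ X) atTop (𝓝 (average N a s X fun d => m d))) ∧
            (∀ T : ℝ, 0 < T → Tendsto (fun X => R α N a s γ X T) atTop (𝓝 (M T / Real.log T))) ∧
            Tendsto (fun T : ℝ => M T / Real.log T) atTop (𝓝 (n / 2 : ℝ)) ∧
            (∀ c : ℝ, Tendsto (fun X : ℕ => average N a s X fun d => m d) atTop (𝓝 (n / 2 + c)) ↔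
              LimitsDiffer (R α N a s γ) c) ∧
            -- D. root number `1`
            (n = 1 → (∀ d, InClass N a s d → 0 ≤ m d ∧ Even (m d)) →
              (Tendsto (fun X : ℕ => average N a s X fun d => m d) atTop (𝓝 0) ↔
                LimitsDiffer (R α N a s γ) (-1 / 2)) ∧
              (LimitsDiffer (R α N a s γ) (-1 / 2) →
                Tendsto (fun X => proportion N a s X fun d => m d = 0) atTop (𝓝 1))) ∧
            -- E. root number `-1`
            (n = 1 → (∀ d, InClass N a s d → 0 ≤ m d ∧ Odd (m d)) →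
              ¬ LimitsDiffer (R α N a s γ) 0 ∧ (∀ c : ℝ, LimitsDiffer (R α N a s γ) c → 1 / 2 ≤ c) ∧
              (Tendsto (fun X : ℕ => average N a s X fun d => m d) atTop (𝓝 1) ↔
                LimitsDiffer (R α N a s γ) (1 / 2)) ∧
              (LimitsDiffer (R α N a s γ) (1 / 2) →
                Tendsto (fun X => proportion N a s X fun d => m d = 1) atTop (𝓝 1)))) ∧
    -- II. the curves `y² = x³ + A x`: there is no hypothesis
    ∀ A : ℤ, A ≠ 0 → (∃ α : Nat.Primes → Fin 2 → ℂ, IsSatake A α) ∧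
      ∀ α : Nat.Primes → Fin 2 → ℂ, IsSatake A α → ∃ L : ℤ → ℂ → ℂ,
        -- the `L`-series of the twists are entire
        (∀ d : ℤ, Squarefree d → Differentiable ℂ (L d) ∧ IsTwist α d (L d)) ∧
        ∃ m : ℤ → ℕ, ∀ (N : ℕ) (a s : ℤ), N ≠ 0 → 2 ∣ N → (∀ p : ℕ, p.Prime → p ∣ N → (p : ℤ) ∣ 6 * A) →
          IsCoprime a (N : ℤ) → (s = 1 ∨ s = -1) → ∀ γ : ℝ, Real.pi / 2 < γ →
            ∃ (M : ℝ → ℝ) (C V : ℝ),
              -- A. the average for fixed `T`
              (∀ T : ℝ, 0 < T → Tendsto (fun X : ℕ => average N a s X fun d => S α γ d T) atTop (𝓝 (M T))) ∧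
              (fun T : ℝ => M T - (1 / 2 * Real.log T + C)) =O[atTop] (fun T : ℝ => 1 / T) ∧
              -- B. almost all twists
              (∀ δ : ℝ, 0 < δ → ∀ᶠ T : ℝ in atTop, ∀ᶠ X : ℕ in atTop,
                proportion N a s X (fun d => δ < |S α γ d T / Real.log T - 1 / 2|) ≤ V / (δ ^ 2 * Real.log T)) ∧
              -- C. one twist; the averages of the orders of vanishing
              (∀ d : ℤ, InClass N a s d → analyticOrderAt (L d) (1 / 2) = m d ∧
                Tendsto (fun T : ℝ => S α γ d T / Real.log T) atTop (𝓝 (m d : ℝ))) ∧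
              (∀ X : ℕ, Tendsto (R α N a s γ X) atTop (𝓝 (average N a s X fun d => m d))) ∧
              (∀ T : ℝ, 0 < T → Tendsto (fun X => R α N a s γ X T) atTop (𝓝 (M T / Real.log T))) ∧
              Tendsto (fun T : ℝ => M T / Real.log T) atTop (𝓝 (1 / 2)) ∧
              (∀ c : ℝ, Tendsto (fun X : ℕ => average N a s X fun d => m d) atTop (𝓝 (1 / 2 + c)) ↔
                LimitsDiffer (R α N a s γ) c) ∧
              -- D. root number `1`
              ((∀ d, InClass N a s d → Even (m d)) →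
                (Tendsto (fun X : ℕ => average N a s X fun d => m d) atTop (𝓝 0) ↔
                  LimitsDiffer (R α N a s γ) (-1 / 2)) ∧
                (LimitsDiffer (R α N a s γ) (-1 / 2) →
                  Tendsto (fun X => proportion N a s X fun d => m d = 0) atTop (𝓝 1))) ∧
              -- E. root number `-1`
              ((∀ d, InClass N a s d → Odd (m d)) →
                ¬ LimitsDiffer (R α N a s γ) 0 ∧ (∀ c : ℝ, LimitsDiffer (R α N a s γ) c → 1 / 2 ≤ c) ∧
                (Tendsto (fun X : ℕ => average N a s X fun d => m d) atTop (𝓝 1) ↔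
                  LimitsDiffer (R α N a s γ) (1 / 2)) ∧
                (LimitsDiffer (R α N a s γ) (1 / 2) →
                  Tendsto (fun X => proportion N a s X fun d => m d = 1) atTop (𝓝 1))) := by
  refine ⟨fun r N a s α hs hα hα0 γ d hd T hT => abs_conv N a s hs α hα hα0 γ d hd T hT,
    fun r N a s α hN hN2 ha hs hα hα0 F₂ h1 h2 γ hγ =>
      (general N hN hN2 a s ha hs α hα hα0 F₂ h1 h2 γ hγ).2,
    fun A hA => ⟨⟨alE A 0, (sat_iff A _).2 (Cg.sat_ex A)⟩, fun α hα => ?_⟩⟩
  have hS := (sat_iff A α).1 hα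
  obtain ⟨F₂, f1, f2, f3⟩ := Cg.sat_square hA hS
  obtain ⟨L, hL⟩ := Cg.sat_twist hA hS
  set m : ℤ → ℕ := fun d => (analyticOrderAt (L d) (1 / 2)).toNat with hmd
  refine ⟨L, hL, m, fun N a s hN hN2 hN6 ha hs γ hγ => ?_⟩
  obtain ⟨-, n, M, C, V, hn, h1, h2, h3, h4⟩ := general N hN hN2 a s ha hs α (Cg.sat_bd hS)
    (fun p hp i => (hS p).1 (hN6 p p.2 hp) i) F₂ f3 f1 γ hγ
  have hn1 : n = 1 := by
    rw [f2] at hn
    exact_mod_cast hn.symm
  subst hn1
  obtain ⟨m', k1, k2, k3, k4, k5, k6, k7⟩ := h4 L fun d hd =>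
    ⟨(hL d hd.1).2, fun x _ _ => ((hL d hd.1).1.analyticAt x).meromorphicAt⟩
  have hord : ∀ d : ℤ, InClass N a s d → analyticOrderAt (L d) (1 / 2) = m d ∧ m' d = m d := by
    intro d hd
    have hk := (k1 d hd).1
    rw [((hL d hd.1).1.analyticAt (1 / 2)).meromorphicOrderAt_eq] at hk
    obtain ⟨n, hn⟩ : ∃ n : ℕ, analyticOrderAt (L d) (1 / 2) = n := by
      by_cases h5 : analyticOrderAt (L d) (1 / 2) = ⊤
      · rw [h5, ENat.map_top] at hk
        exact absurd hk (by simp)
      · obtain ⟨n, hn⟩ := ENat.ne_top_iff_exists.1 h5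
        exact ⟨n, hn.symm⟩
    have hmn : m d = n := by
      rw [hmd]
      simp only
      rw [hn]
      rfl
    rw [hn] at hk
    simp only [ENat.map_coe] at hk
    have h6 : (n : ℤ) = m' d := by exact_mod_cast hk
    rw [hmn]
    exact ⟨hn, h6.symm⟩
  have hp1 : ∀ (k : ℕ) (X : ℕ), (proportion N a s X fun d => m' d = (k : ℤ)) = proportion N a s X fun d => m d = k :=
    fun k X => prop_congr2 N a s X fun d hd => by
      rw [(hord d hd).2]
      exact Nat.cast_inj
  have hav : ∀ X : ℕ, (average N a s X fun d => (m' d : ℝ)) = average N a s X fun d => (m d : ℝ) := fun X =>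
    avg_congr2 N a s X fun d hd => by
      rw [(hord d hd).2]
      push_cast
      rfl
  simp only [hav] at k2 k5 k6 k7
  simp only [Int.cast_one] at h2 h3 k4 k5
  refine ⟨M, C, V, h1, h2, h3, fun d hd => ⟨(hord d hd).1, ?_⟩, k2, k3, k4, k5, fun he => ?_, fun ho => ?_⟩
  · have h5 := (k1 d hd).2
    rw [(hord d hd).2] at h5
    exact_mod_cast h5
  · obtain ⟨j1, j2⟩ := k6 trivial (fun d hd => by
      rw [(hord d hd).2]
      exact ⟨Int.natCast_nonneg _, (Int.even_coe_nat _).2 (he d hd)⟩)
    refine ⟨j1, fun hc => ?_⟩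
    have h6 := hp1 0
    push_cast at h6
    have h7 := j2 hc
    simp only [h6] at h7
    exact h7
  · obtain ⟨j1, j2, j3, j4⟩ := k7 trivial (fun d hd => by
      rw [(hord d hd).2]
      exact ⟨Int.natCast_nonneg _, (Int.odd_coe_nat _).2 (ho d hd)⟩)
    refine ⟨j1, j2, j3, fun hc => ?_⟩
    have h6 := hp1 1
    push_cast at h6
    have h7 := j4 hc
    simp only [h6] at h7
    exact h7

end Pool.Agent.Results.MP_50bb2e_nt.RootNumberClasses
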