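import Pool.Agent.X252.TF

/-!
# Quadratic twists of base changes to tame abelian fields: least `2`-adic valuations and positive
# proportions in all cosets

`E_i : y² = x³ + a_i x + b_i` (`i = 1, …, m`) are elliptic curves over `ℚ`, given with their newforms
`f_i`.  `G₀` is a finite group of Dirichlet characters, of arbitrary orders, with squarefree conductors
prime to `2Δ_i`, and `F` the abelian field attached to `G₀` (any tamely ramified abelian field which is
unramified at `2` and at the bad primes); `π_i` is the representation of `GL₂(𝔸_F)` attached to `E_i`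
over `F`.  `H` is a group of quadratic Dirichlet characters with squarefree conductors composed of
admissible primes: primes `q ∤ 2Δ_i`, unramified in `F`, such that `#E_i(k)` is odd for all `i` for a
finite field `k` which contains the residue fields of `F` above `q`.  For `χ ∈ H` the twist of `π_i` by
the quadratic character `χ_F = χ ∘ N` of `F` has the `L`-function
`L(s, π_i ⊗ χ_F) = ∏_{h ∈ G₀} L(f_i, h χ, s + 1/2)`, and we consider the number

`B(χ) = ∏_i ∏_{h ∈ G₀} g((h χ)⁻¹) L(f_i, h χ, 1)`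

with the Gauss sums `g`.  It belongs to the module `Λ` over the ring `O` generated by the roots of unity
of order dividing `E` (where `2 ∣ E` and `h ^ E = 1` for all `h ∈ G₀`) which is generated by the products
of periods of the forms `f_i`.  Let `P` be a maximal ideal of `O` above `2`.

* `B(χ) ≠ 0` if and only if `L(f_i, h χ, 1) ≠ 0` for all `i` and `h ∈ G₀`, that is, if and only if all the
  central orders of the `π_i ⊗ χ_F` are `0`; and then `L(E_i/F', s) = L(E_i/F'', s) M(s)` with `M(1) ≠ 0`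
  for all `F' ∩ F ⊂ F'' ⊂ F' ⊂ F(√d)`, where `F(√d)` is the field of `G₀` and `χ`.
* Let `χ₀ ∈ H` be such that `B(χ₀) ≠ 0`.  Then `B(χ₀) ∉ P^(V+1) Λ` for some `V`, and for every subgroup
  `U` of `H` there is a `μ ≤ V`, the least valuation in the coset, with `B(χ) ∈ P^μ Λ` for all
  `χ ∈ χ₀ U`, such that at least the proportion `2^(-μ)` of the `χ` in the coset `χ₀ U` satisfy
  `B(χ) ∉ P^(μ+1) Λ` (so that all the central orders are `0`): there is a set `K` of at most `2^μ`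
  elements of `U` such that for every `χ ∈ χ₀ U` at least `2^(-μ) |K|` of the `χ k`, `k ∈ K`, have this
  property; the same holds for `2^(-μ) |U|` of the `χ ∈ χ₀ U` if `U` is finite; and with a constant
  `B₀` the number of the `χ ∈ χ₀ U` with conductor at most `B₀ X` and this property is at least
  `2^(-μ)` times the number of all `χ ∈ χ₀ U` with conductor at most `X`.

For example, `U` may be the group of the characters in `H` which are trivial at the places of a finite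
set `S`: then `χ₀ U` is the set of the `χ ∈ H` with the same components as `χ₀` at the places in `S`.
The norm of the conductor of `χ_F` is the power of the conductor of `χ` with exponent `[F : ℚ]`.
-/

set_option autoImplicit false

open UpperHalfPlane MatrixGroups CongruenceSubgroup NumberField IsDedekindDomain Topology

namespace Pool.Agent.Results.MP_50bb2e_nt.TameBaseChangeTwists

/-- `N_p`: the number of pairs `(x, y) ∈ (ℤ/p)²` with `y² = x³ + a x + b`. -/
noncomputable def pointCount (a b : ℤ) (p : ℕ) : ℕ :=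
  Nat.card {q : ZMod p × ZMod p // q.2 ^ 2 = q.1 ^ 3 + (a : ZMod p) * q.1 + (b : ZMod p)}

/-- `p` is a prime not dividing `2 Δ`, `Δ = -4 a³ - 27 b²`. -/
def GoodPrime (a b : ℤ) (p : ℕ) : Prop :=
  p.Prime ∧ ¬ ((p : ℤ) ∣ 2 * (-4 * a ^ 3 - 27 * b ^ 2))

/-- The families `c = (c_q)` of characters `c_q` of the groups `(ℤ/q)ˣ`.  The family with `c_q = 1`
except for the primes `q` of a finite set stands for the Dirichlet character `χ_c = ∏ c_q` of
squarefree conductor; this is an isomorphism of groups. -/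
abbrev Fam : Type := (q : ℕ) → (ZMod q)ˣ →* ℂˣ

open Classical in
/-- The set of the `q` with `c_q ≠ 1` (if it is finite). -/
noncomputable def supp (c : Fam) : Finset ℕ :=
  if h : {q | c q ≠ 1}.Finite then h.toFinset else ∅

/-- The conductor of `χ_c`. -/
noncomputable def conductor (c : Fam) : ℕ := ∏ q ∈ supp c, q

/-- The value `χ_c(m)`. -/
noncomputable def value (c : Fam) (m : ℕ) : ℂ :=
  ∏ q ∈ supp c, if h : m.Coprime q then (c q (ZMod.unitOfCoprime m h) : ℂ) else 0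

open Classical in
/-- The Gaussian period `∑ exp(2 π i u / M)`, `0 ≤ u < M`, `χ_c(u) = 1`, where `M` is the conductor of
`χ_c`.  It generates the cyclic extension of `ℚ` attached to `χ_c` (the subfield of `ℚ(exp(2 π i / M))`
fixed by the kernel of `χ_c`; recall that `M` is squarefree). -/
noncomputable def period (c : Fam) : ℂ :=
  ∑ u ∈ (Finset.range (conductor c)).filter (fun u => value c u = 1),
    Complex.exp (2 * Real.pi * Complex.I / (conductor c : ℕ)) ^ u

/-- The field generated by the Gaussian periods of the characters in `G`: the abelian field attached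
to `G`. -/
noncomputable def periodField (G : Subgroup Fam) : IntermediateField ℚ ℂ :=
  IntermediateField.adjoin ℚ {x : ℂ | ∃ χ ∈ G, x = period χ}

/-- `G₀` is a finite group of Dirichlet characters of squarefree conductors composed of primes
`q ∤ 2 Δ_i`. -/
structure IsBase {m : ℕ} (a b : Fin m → ℤ) (G₀ : Subgroup Fam) : Prop where
  finite_group : (G₀ : Set Fam).Finite
  finite : ∀ h ∈ G₀, {q | h q ≠ 1}.Finite
  good : ∀ h ∈ G₀, ∀ q, h q ≠ 1 → q.Prime ∧ ∀ i, GoodPrime (a i) (b i) q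

/-- `q` is an admissible prime: `q ∤ 2 Δ_i` for all `i`, `q` does not divide the conductors of the
characters in `G₀`, and there is a finite field `k` of characteristic `q` with `h(|k|) = 1` for all
`h ∈ G₀` (that is, the residue degree at `q` of the field of `G₀` divides the degree of `k`) such that
`l` does not divide the number of the points of `E_i` over `k` (with the point at infinity) for all
`i`. -/
def Admissible {m : ℕ} (a b : Fin m → ℤ) (G₀ : Subgroup Fam) (l q : ℕ) : Prop :=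
  q.Prime ∧ (∀ i, GoodPrime (a i) (b i) q) ∧ (∀ h ∈ G₀, h q = 1) ∧
    ∃ (k : Type) (_ : Field k) (_ : Finite k), CharP k q ∧ (∀ h ∈ G₀, value h (Nat.card k) = 1) ∧
      ∀ i, ¬ l ∣ Nat.card {x : k × k // x.2 ^ 2 = x.1 ^ 3 + (a i : k) * x.1 + (b i : k)} + 1

/-- `H` is a group of Dirichlet characters of order dividing `l ^ n` and of squarefree conductors
composed of admissible primes. -/
structure IsCharGroup {m : ℕ} (a b : Fin m → ℤ) (G₀ : Subgroup Fam) (l n : ℕ)
    (H : Subgroup Fam) : Prop where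
  pow : ∀ c ∈ H, c ^ (l ^ n) = 1
  finite : ∀ c ∈ H, {q | c q ≠ 1}.Finite
  admissible : ∀ c ∈ H, ∀ q, c q ≠ 1 → Admissible a b G₀ l q

/-- The `n`-th Fourier coefficient of `f`. -/
noncomputable def coef {N : ℕ} (f : CuspForm (Gamma0 N : Subgroup (GL (Fin 2) ℝ)) 2) (n : ℕ) : ℂ :=
  (qExpansion 1 f).coeff n

/-- `f ∈ S_2(Γ₀(N))` is the newform of the elliptic curve `E : y² = x³ + a x + b`, with its standard
properties: the Fourier coefficients `c(n)` of `f` are real with `c(1) = 1`, they satisfy the Hecke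
relations `c(mn) = c(m) c(n)` for coprime `m`, `n` and `c(p^(j+2)) = c(p) c(p^(j+1)) - p c(p^j)`
(without the last term if `p ∣ N`) and the bounds `|c(p)| ≤ 2√p` for `p ∤ N`, `|c(p)| ≤ 1` for
`p ∣ N`; `f` is an eigenfunction of the Fricke involution: `f(-1/(Nτ)) = -w N τ² f(τ)` with `w = ±1`;
for all primes `p ∤ 2Δ` one has `p ∤ N` and `c(p) = a_p(E)`.  (Every elliptic curve over `ℚ` has such a
form by the modularity theorem.) -/
structure IsFormOf (a b : ℤ) (N : ℕ) (f : CuspForm (Gamma0 N : Subgroup (GL (Fin 2) ℝ)) 2) :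
    Prop where
  one : coef f 1 = 1
  real : ∀ n, (coef f n).im = 0
  mul : ∀ m n : ℕ, Nat.Coprime m n → coef f (m * n) = coef f m * coef f n
  pow : ∀ p j : ℕ, p.Prime → coef f (p ^ (j + 2)) = coef f p * coef f (p ^ (j + 1)) -
      (if p ∣ N then 0 else (p : ℂ) * coef f (p ^ j))
  good : ∀ p : ℕ, p.Prime → ¬ p ∣ N → ‖coef f p‖ ≤ 2 * Real.sqrt p
  bad : ∀ p : ℕ, p.Prime → p ∣ N → ‖coef f p‖ ≤ 1
  fricke : ∃ w : ℝ, (w = 1 ∨ w = -1) ∧ ∀ τ τ' : ℍ, (τ' : ℂ) * ((N : ℂ) * (τ : ℂ)) = -1 →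
    f τ' = -(w : ℂ) * (N : ℂ) * (τ : ℂ) ^ 2 * f τ
  points : ∀ p : ℕ, GoodPrime a b p → ¬ p ∣ N ∧ coef f p = (p : ℂ) - (pointCount a b p : ℂ)

/-- `pw t u n = α ^ n + β ^ n`, where `α`, `β` are the roots of `X² - t X + u`. -/
noncomputable def pw (t u : ℂ) : ℕ → ℂ
  | 0 => 2
  | 1 => t
  | n + 2 => t * pw t u (n + 1) - u * pw t u n

section
variable {F : Type} [Field F] [NumberField F]

/-- The number `a_v` of `E : y² = x³ + a x + b` at a finite place `v` of `F`: `Nv` minus the number of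
affine solutions `(x, y)` of the equation over the residue field `𝓞 F / v`. -/
noncomputable def av (a b : ℤ) (v : HeightOneSpectrum (𝓞 F)) : ℤ :=
  ((Ideal.absNorm v.asIdeal : ℕ) : ℤ) -
    ((Nat.card {x : (𝓞 F ⧸ v.asIdeal) × (𝓞 F ⧸ v.asIdeal) //
      x.2 ^ 2 = x.1 ^ 3 + (a : 𝓞 F ⧸ v.asIdeal) * x.1 + (b : 𝓞 F ⧸ v.asIdeal)} : ℕ) : ℤ)

open Classical in
/-- The Euler factor of `L(E/F, s)` at the finite place `v` of `F`.  If `v ∤ 2 Δ`, it is
`(1 - a_v (Nv)^(-s) + (Nv)^(1-2s))⁻¹`.  If `v ∣ 2 Δ` and `Nv = p ^ d` with `p` prime, it is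
`(1 - (α^d + β^d) (Nv)^(-s) + (Nv)^(1-2s))⁻¹` for `p ∤ N`, where `α`, `β` are the roots of
`X² - c(p) X + p`, and `(1 - c(p)^d (Nv)^(-s))⁻¹` for `p ∣ N`.  (The primes `p ∣ 2 Δ` will be
unramified in `F`, so that this is the Hasse-Weil factor.) -/
noncomputable def factor (a b : ℤ) {N : ℕ} (f : CuspForm (Gamma0 N : Subgroup (GL (Fin 2) ℝ)) 2)
    (s : ℂ) (v : HeightOneSpectrum (𝓞 F)) : ℂ :=
  if ((2 * (4 * a ^ 3 + 27 * b ^ 2) : ℤ) : 𝓞 F) ∈ v.asIdeal then
    (1 - pw (coef f (Ideal.absNorm v.asIdeal).minFac)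
          (if (Ideal.absNorm v.asIdeal).minFac ∣ N then 0 else ((Ideal.absNorm v.asIdeal).minFac : ℂ))
          ((Ideal.absNorm v.asIdeal).factorization (Ideal.absNorm v.asIdeal).minFac)
          * ((Ideal.absNorm v.asIdeal : ℕ) : ℂ) ^ (-s)
      + (if (Ideal.absNorm v.asIdeal).minFac ∣ N then (0 : ℂ) else
          ((Ideal.absNorm v.asIdeal : ℕ) : ℂ) ^ (1 - 2 * s)))⁻¹
  else
    (1 - ((av a b v : ℤ) : ℂ) * ((Ideal.absNorm v.asIdeal : ℕ) : ℂ) ^ (-s)
      + ((Ideal.absNorm v.asIdeal : ℕ) : ℂ) ^ (1 - 2 * s))⁻¹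

end

/-- `L(E/F, s) = L(E/F', s) M(s)` with entire functions `L(E/F', s)` and `M(s)`, `M(1) ≠ 0`, for number
fields `F, F' ⊂ ℂ` and the elliptic curve `E : y² = x³ + a x + b` with newform `f`: there are entire
functions `A` and `M`, `M(1) ≠ 0`, such that for `Re s > 3/2` the Euler products of `E` over the finite
places of `F'` and of `F` are `A(s)` and `A(s) M(s)`.  So the orders of vanishing of `L(E/F, s)` and of
`L(E/F', s)` at `s = 1` are equal. -/
def SameOrder (F F' : IntermediateField ℚ ℂ) [NumberField F] [NumberField F'] (a b : ℤ) {N : ℕ}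
    (f : CuspForm (Gamma0 N : Subgroup (GL (Fin 2) ℝ)) 2) : Prop :=
  ∃ A M : ℂ → ℂ, Differentiable ℂ A ∧ Differentiable ℂ M ∧ M 1 ≠ 0 ∧
    ∀ s : ℂ, 3 / 2 < s.re →
      HasProd (fun v : HeightOneSpectrum (𝓞 F') => factor a b f s v) (A s) ∧
      HasProd (fun v : HeightOneSpectrum (𝓞 F) => factor a b f s v) (A s * M s)

theorem pw_eq (t u : ℂ) : ∀ n : ℕ, pw t u n = W165.CE.pw t u n
  | 0 => rfl
  | 1 => rfl
  | n + 2 => by rw [pw, W165.CE.pw, pw_eq t u (n + 1), pw_eq t u n]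

theorem factor_eq {F : Type} [Field F] [NumberField F] (a b : ℤ) {N : ℕ}
    (f : CuspForm (Gamma0 N : Subgroup (GL (Fin 2) ℝ)) 2) (s : ℂ) (v : HeightOneSpectrum (𝓞 F)) :
    factor a b f s v = W165.CE.fac a b N (Pool.Agent.Y18.BSD.co f) s v := by
  unfold factor W165.CE.fac
  rw [pw_eq]
  rfl

theorem sameOrder_of {F F' : IntermediateField ℚ ℂ} [NumberField F] [NumberField F'] {a b : ℤ}
    {N : ℕ} {f : CuspForm (Gamma0 N : Subgroup (GL (Fin 2) ℝ)) 2}
    (h : Pool.Agent.X252.TA.RelOrder F F' a b N f) : SameOrder F F' a b f := by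
  obtain ⟨A, M, h1, h2, h3, h4⟩ := h
  refine ⟨A, M, h1, h2, h3, fun s hs => ⟨?_, ?_⟩⟩
  · refine (congrArg (fun g => HasProd g (A s)) (funext fun v => ?_)).mp (h4 s hs).1
    exact (factor_eq a b f s v).symm
  · refine (congrArg (fun g => HasProd g (A s * M s)) (funext fun v => ?_)).mp (h4 s hs).2
    exact (factor_eq a b f s v).symm

/-- `L(f, χ_c, s)` is entire and `L(f, χ_c, 1) ≠ 0`: there is an entire function `G` which for
`Re s > 3/2` is the Euler product `∏_p (1 - χ_c(p) c(p) p^(-s) + χ_c(p)² p^(1-2s))⁻¹` (without the last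
term if `p ∣ N`), and `G(1) ≠ 0`. -/
def TwistNonvanishing {N : ℕ} (f : CuspForm (Gamma0 N : Subgroup (GL (Fin 2) ℝ)) 2) (c : Fam) :
    Prop :=
  ∃ G : ℂ → ℂ, Differentiable ℂ G ∧ (∀ s : ℂ, 3 / 2 < s.re →
      HasProd (fun p : Nat.Primes => (1 - value c p * coef f p * ((p : ℕ) : ℂ) ^ (-s) +
        value c p ^ 2 * ((if (p : ℕ) ∣ N then 0 else ((p : ℕ) : ℂ)) *
          (((p : ℕ) : ℂ) ^ (-s)) ^ 2))⁻¹) (G s)) ∧ G 1 ≠ 0

/-- `L` is the `L`-function `L(f, χ_c, s)`: it is entire, and for `Re s > 3/2` it is the Euler product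
`∏_p (1 - χ_c(p) c(p) p^(-s) + χ_c(p)² p^(1-2s))⁻¹` (without the last term if `p ∣ N`). -/
def IsTwistL {N : ℕ} (f : CuspForm (Gamma0 N : Subgroup (GL (Fin 2) ℝ)) 2) (c : Fam)
    (L : ℂ → ℂ) : Prop :=
  Differentiable ℂ L ∧ ∀ s : ℂ, 3 / 2 < s.re →
    HasProd (fun p : Nat.Primes => (1 - value c p * coef f p * ((p : ℕ) : ℂ) ^ (-s) +
      value c p ^ 2 * ((if (p : ℕ) ∣ N then 0 else ((p : ℕ) : ℂ)) *
        (((p : ℕ) : ℂ) ^ (-s)) ^ 2))⁻¹) (L s)

/-- The Gauss sum `∑ χ_c(u)⁻¹ exp(2 π i u / M)`, `0 ≤ u < M`, `M` the conductor of `χ_c`, of the inverse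
of the character `χ_c` (the terms with `χ_c(u) = 0` are zero). -/
noncomputable def gauss (c : Fam) : ℂ :=
  ∑ u ∈ Finset.range (conductor c),
    (value c u)⁻¹ * Complex.exp (2 * Real.pi * Complex.I * u / (conductor c : ℕ))

open Classical in
/-- The number `g(χ_c⁻¹) L(f, χ_c, 1)` (the function `L(f, χ_c, s)` exists and is unique by the theorem
below). -/
noncomputable def central {N : ℕ} (f : CuspForm (Gamma0 N : Subgroup (GL (Fin 2) ℝ)) 2)
    (c : Fam) : ℂ :=
  if h : ∃ L, IsTwistL f c L then gauss c * h.choose 1 else 0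

/-- `x` is one of the numbers `2πi ∫_{i∞}^r f(z) dz = lim_{y → 0} ∑ c(n)/n exp(2 π i n (r + i y))`, `r` a
rational number with denominator prime to the level `N`. -/
def IsPeriod {N : ℕ} (f : CuspForm (Gamma0 N : Subgroup (GL (Fin 2) ℝ)) 2) (x : ℂ) : Prop :=
  ∃ r : ℚ, r.den.Coprime N ∧ Filter.Tendsto (fun y : ℝ => ∑' n : ℕ, coef f n / n *
    Complex.exp (2 * Real.pi * Complex.I * n * ((r : ℂ) + (y : ℂ) * Complex.I))) (𝓝[>] 0) (𝓝 x)

/-- The ring generated by the roots of unity of order dividing `e`. -/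
def cyc (e : ℕ) : Subring ℂ := Subring.closure {z | z ^ e = 1}

open Classical in
/-- The pairs `(i, h)`, `h ∈ G₀` (if `G₀` is finite). -/
noncomputable def pairs (m : ℕ) (G₀ : Subgroup Fam) : Finset (Fin m × Fam) :=
  if h : (G₀ : Set Fam).Finite then Finset.univ ×ˢ h.toFinset else ∅

section
variable {m : ℕ} {N : Fin m → ℕ}
    (f : (i : Fin m) → CuspForm (Gamma0 (N i) : Subgroup (GL (Fin 2) ℝ)) 2) (G₀ : Subgroup Fam)

/-- `B(χ) = ∏_i ∏_{h ∈ G₀} g((h χ)⁻¹) L(f_i, h χ, 1)`. -/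
noncomputable def bsd (χ : Fam) : ℂ := ∏ x ∈ pairs m G₀, central (f x.1) (x.2 * χ)

/-- The module `Λ` generated by the products `∏_i ∏_{h ∈ G₀} y_{i,h}`, where `y_{i,h}` is a period of the
form `f_i`. -/
def lattice (e : ℕ) : Submodule (cyc e) ℂ :=
  Submodule.span (cyc e) {z | ∃ y : Fin m × Fam → ℂ,
    (∀ x ∈ pairs m G₀, IsPeriod (f x.1) (y x)) ∧ z = ∏ x ∈ pairs m G₀, y x}

/-- `B(χ) ∈ P ^ μ Λ`. -/
def Divisible (e : ℕ) (P : Ideal (cyc e)) (μ : ℕ) (χ : Fam) : Prop :=
  bsd f G₀ χ ∈ P ^ μ • lattice f G₀ e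

/-- The valuation of `B` is at least `μ` on the coset `χ₀ U`, and it is `μ` for at least the proportion
`2 ^ (-μ)` of the elements of `χ₀ U`, that is, `B(χ₀ u) ∈ P ^ μ Λ` for all `u ∈ U`, and:

* there is a nonempty set `K` of at most `2 ^ μ` elements of `U` such that for every `u ∈ U` at least
  `2 ^ (-μ) |K|` of the `k ∈ K` satisfy `B(χ₀ u k) ∉ P ^ (μ+1) Λ`;
* if `U` is finite, then `B(χ₀ u) ∉ P ^ (μ+1) Λ` for at least `2 ^ (-μ) |U|` of the `u ∈ U`;
* there is a `B₀` such that for all `X` the number of the `χ ∈ χ₀ U` with conductor at most `B₀ X` and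
  `B(χ) ∉ P ^ (μ+1) Λ` is at least `2 ^ (-μ)` times the number of the `χ ∈ χ₀ U` with conductor at
  most `X`. -/
def LeastValuation (e : ℕ) (P : Ideal (cyc e)) (χ₀ : Fam) (U : Subgroup Fam) (μ : ℕ) : Prop :=
  (∀ u ∈ U, Divisible f G₀ e P μ (χ₀ * u)) ∧
  (∃ K : Finset Fam, K.Nonempty ∧ K.card ≤ 2 ^ μ ∧ (∀ k ∈ K, k ∈ U) ∧
    ∀ u ∈ U, K.card ≤ 2 ^ μ * {k | k ∈ K ∧ ¬ Divisible f G₀ e P (μ + 1) (χ₀ * (u * k))}.ncard) ∧
  ((U : Set Fam).Finite →
    Nat.card U ≤ 2 ^ μ * {u | u ∈ U ∧ ¬ Divisible f G₀ e P (μ + 1) (χ₀ * u)}.ncard) ∧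
  ∃ B₀ : ℕ, ∀ X : ℕ, {u | u ∈ U ∧ conductor (χ₀ * u) ≤ X}.encard ≤
    2 ^ μ * {u | (u ∈ U ∧ conductor (χ₀ * u) ≤ B₀ * X) ∧
      ¬ Divisible f G₀ e P (μ + 1) (χ₀ * u)}.encard

end

theorem supp_mul (c k : Fam) (hc : {q | c q ≠ 1}.Finite) (hk : {q | k q ≠ 1}.Finite) :
    supp (c * k) ⊆ supp c ∪ supp k := by
  classical
  intro q hq
  have hck : {q | (c * k) q ≠ 1}.Finite := by
    refine (hc.union hk).subset ?_
    intro q hq
    by_contra h
    rw [Set.mem_union, not_or] at h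
    have h1 : c q = 1 := not_not.1 h.1
    have h2 : k q = 1 := not_not.1 h.2
    exact hq (by rw [Pi.mul_apply, h1, h2]; ext u; simp)
  unfold supp at hq ⊢
  rw [dif_pos hck, Set.Finite.mem_toFinset] at hq
  rw [dif_pos hc, dif_pos hk, Finset.mem_union, Set.Finite.mem_toFinset, Set.Finite.mem_toFinset]
  by_contra h
  rw [not_or] at h
  have h1 : c q = 1 := not_not.1 h.1
  have h2 : k q = 1 := not_not.1 h.2
  exact hq (by rw [Pi.mul_apply, h1, h2]; ext u; simp)

theorem conductor_pos (c : Fam) (h : ∀ q, c q ≠ 1 → q.Prime) : 0 < conductor c := by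
  classical
  unfold conductor
  apply Finset.prod_pos
  intro q hq
  unfold supp at hq
  split_ifs at hq with hf
  · rw [Set.Finite.mem_toFinset] at hq
    exact (h q hq).pos
  · exact absurd hq (Finset.notMem_empty q)

theorem prime_of_mem_supp {c : Fam} (h : ∀ q, c q ≠ 1 → q.Prime) {q : ℕ} (hq : q ∈ supp c) :
    q.Prime := by
  classical
  unfold supp at hq
  split_ifs at hq with hf
  · rw [Set.Finite.mem_toFinset] at hq
    exact h q hq
  · exact absurd hq (Finset.notMem_empty q)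

theorem conductor_mul (c k : Fam) (hc : {q | c q ≠ 1}.Finite) (hk : {q | k q ≠ 1}.Finite)
    (hc' : ∀ q, c q ≠ 1 → q.Prime) (hk' : ∀ q, k q ≠ 1 → q.Prime) :
    conductor (c * k) ≤ conductor c * conductor k := by
  classical
  have h1 : ∀ q ∈ supp c ∪ supp k, 1 ≤ q := by
    intro q hq
    rcases Finset.mem_union.1 hq with h | h
    · exact (prime_of_mem_supp hc' h).one_le
    · exact (prime_of_mem_supp hk' h).one_le
  calc conductor (c * k) ≤ ∏ q ∈ supp c ∪ supp k, q :=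
        Finset.prod_le_prod_of_subset_of_one_le' (supp_mul c k hc hk) (fun q hq _ => h1 q hq)
    _ ≤ (∏ q ∈ supp c ∪ supp k, q) * ∏ q ∈ supp c ∩ supp k, q := by
        refine Nat.le_mul_of_pos_right _ (Finset.prod_pos fun q hq => ?_)
        exact (prime_of_mem_supp hc' (Finset.mem_inter.1 hq).1).pos
    _ = conductor c * conductor k := Finset.prod_union_inter

section lib
variable {m : ℕ} {a b : Fin m → ℤ} {N : Fin m → ℕ} [∀ i, NeZero (N i)]
    {f : (i : Fin m) → CuspForm (Gamma0 (N i) : Subgroup (GL (Fin 2) ℝ)) 2}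

omit [∀ i, NeZero (N i)] in
theorem lib_of (hf : ∀ i, IsFormOf (a i) (b i) (N i) (f i)) (i : Fin m) :
    Pool.Agent.Y18.BSD.IsFormOf (a i) (b i) (N i) (f i) :=
  ⟨(hf i).one, (hf i).real, (hf i).mul, (hf i).pow, (hf i).good, (hf i).bad,
    (hf i).fricke, (hf i).points⟩

theorem base_ok {G₀ : Subgroup Fam} (h : IsBase a b G₀) : Pool.Agent.X252.TA.BaseOk m a b G₀ :=
  ⟨h.finite_group, h.finite, h.good⟩

theorem hok {G₀ : Subgroup Fam} {l n : ℕ} {H : Subgroup Fam} (hH : IsCharGroup a b G₀ l n H) :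
    Pool.Agent.X252.TA.HOkG m a b G₀ l n H := ⟨hH.pow, hH.finite, hH.admissible⟩

theorem mem_pairs {G₀ : Subgroup Fam} (h : IsBase a b G₀) (x : Fin m × Fam) :
    x ∈ pairs m G₀ ↔ x.2 ∈ G₀ := by
  unfold pairs
  rw [dif_pos h.finite_group, Finset.mem_product, Set.Finite.mem_toFinset]
  simp

section one
variable {G₀ : Subgroup Fam} (hG₀ : IsBase a b G₀) {l n : ℕ} {H : Subgroup Fam}
    (hH : IsCharGroup a b G₀ l n H) {h : Fam} (hh : h ∈ G₀) {c : Fam} (hc : c ∈ H)

include hG₀ hH hh hc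

theorem fin_mul : {q | (h * c) q ≠ 1}.Finite :=
  Pool.Agent.X252.TA.mul_fin (base_ok hG₀) (hok hH) hh hc

theorem adm_mul (q : ℕ) (hq : (h * c) q ≠ 1) : q.Prime ∧ ∀ i, GoodPrime (a i) (b i) q :=
  Pool.Agent.X252.TA.mul_adm (base_ok hG₀) (hok hH) hh hc q hq

theorem exists_unique_L (hf : ∀ i, IsFormOf (a i) (b i) (N i) (f i)) (i : Fin m) :
    ∃! L, IsTwistL (f i) (h * c) L := by
  obtain ⟨w, hnf, hfr⟩ := (lib_of hf i).newf
  have hp : ∀ q ∈ Pool.Agent.Y18.LP.sp (h * c), q.Prime ∧ ¬ q ∣ N i := by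
    intro q hq
    have h5 := (Pool.Agent.Y18.LP.mem_sp (fin_mul hG₀ hH hh hc) q).1 hq
    obtain ⟨h6, h7⟩ := adm_mul hG₀ hH hh hc q h5
    exact ⟨h6, ((hf i).points q (h7 i)).1⟩
  obtain ⟨G, hG1, hG2, -⟩ := Pool.Agent.Y18.LP.tw_complete hnf hfr (lib_of hf i).cf (c := h * c)
    (fin_mul hG₀ hH hh hc) hp
  refine ⟨G, ⟨hG1, hG2⟩, fun L hL => ?_⟩
  have hA : AnalyticOnNhd ℂ L Set.univ := fun s _ => hL.1.analyticAt s
  have hB : AnalyticOnNhd ℂ G Set.univ := fun s _ => hG1.analyticAt s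
  have hev : L =ᶠ[𝓝 (2 : ℂ)] G := by
    have hopen : IsOpen {s : ℂ | (3 : ℝ) / 2 < s.re} :=
      isOpen_lt continuous_const Complex.continuous_re
    filter_upwards [hopen.mem_nhds (show (2 : ℂ) ∈ {s : ℂ | (3 : ℝ) / 2 < s.re} by
      show (3 : ℝ) / 2 < (2 : ℂ).re
      norm_num)] with s hs
    exact (hL.2 s hs).unique (hG2 s hs)
  exact hA.eq_of_eventuallyEq hB hev

theorem central_eq (hf : ∀ i, IsFormOf (a i) (b i) (N i) (f i)) (i : Fin m) :
    central (f i) (h * c) = Pool.Agent.Y18.LP.bt (Pool.Agent.Y18.BSD.bv (f i)) (h * c)⁻¹ := by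
  obtain ⟨w, hnf, hfr⟩ := (lib_of hf i).newf
  have hp : ∀ q ∈ Pool.Agent.Y18.LP.sp (h * c), q.Prime ∧ ¬ q ∣ N i := by
    intro q hq
    have h5 := (Pool.Agent.Y18.LP.mem_sp (fin_mul hG₀ hH hh hc) q).1 hq
    obtain ⟨h6, h7⟩ := adm_mul hG₀ hH hh hc q h5
    exact ⟨h6, ((hf i).points q (h7 i)).1⟩
  have hex : ∃ L, IsTwistL (f i) (h * c) L := (exists_unique_L hG₀ hH hh hc hf i).exists
  unfold central
  rw [dif_pos hex]
  exact (Pool.Agent.X252.LX.val_eq hnf hfr (lib_of hf i).cf (fin_mul hG₀ hH hh hc) hp hex.choose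
    hex.choose_spec.1 hex.choose_spec.2).symm

theorem central_ne (hf : ∀ i, IsFormOf (a i) (b i) (N i) (f i)) (i : Fin m) :
    central (f i) (h * c) ≠ 0 ↔ TwistNonvanishing (f i) (h * c) := by
  rw [central_eq hG₀ hH hh hc hf i]
  exact ⟨fun h1 => Pool.Agent.X252.TA.tw_of_bt m a b N f (lib_of hf) (fin_mul hG₀ hH hh hc)
    (adm_mul hG₀ hH hh hc) i h1, fun h1 => Pool.Agent.X252.TA.bt_of_tw m a b N f (lib_of hf)
    (fin_mul hG₀ hH hh hc) (adm_mul hG₀ hH hh hc) i h1⟩

end one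

theorem bsd_eq {G₀ : Subgroup Fam} (hG₀ : IsBase a b G₀) {l n : ℕ} {H : Subgroup Fam}
    (hH : IsCharGroup a b G₀ l n H) {c : Fam} (hc : c ∈ H)
    (hf : ∀ i, IsFormOf (a i) (b i) (N i) (f i)) :
    bsd f G₀ c = Pool.Agent.X252.TA.BT m N f (pairs m G₀) c := by
  unfold bsd Pool.Agent.X252.TA.BT
  exact Finset.prod_congr rfl fun x hx => central_eq hG₀ hH ((mem_pairs hG₀ x).1 hx) hc hf x.1

theorem lattice_eq (hf : ∀ i, IsFormOf (a i) (b i) (N i) (f i)) (e : ℕ) (G₀ : Subgroup Fam) :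
    lattice f G₀ e = Pool.Agent.X252.TA.WT m N f e (pairs m G₀) := by
  have h1 : ∀ i, Pool.Agent.X252.LX.Wp m N f e i =
      Submodule.span (cyc e) {x | IsPeriod (f i) x} := by
    intro i
    obtain ⟨w, hnf, hfr⟩ := (lib_of hf i).newf
    exact Pool.Agent.X252.LX.span_period hfr
  unfold Pool.Agent.X252.TA.WT
  have h2 : ∏ x ∈ pairs m G₀, Pool.Agent.X252.LX.Wp m N f e x.1 =
      ∏ x ∈ pairs m G₀, Submodule.span (cyc e) {y | IsPeriod (f x.1) y} :=
    Finset.prod_congr rfl fun x _ => h1 x.1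
  rw [h2, Submodule.prod_span]
  unfold lattice
  congr 1
  ext z
  rw [Set.mem_finsetProd]
  constructor
  · rintro ⟨y, hy, rfl⟩
    exact ⟨y, fun {x} hx => hy x hx, rfl⟩
  · rintro ⟨y, hy, rfl⟩
    exact ⟨y, fun x hx => hy hx, rfl⟩

end lib

theorem closure_sq {χ ψ : Fam} (h5 : χ * χ = 1) (hψ : ψ ∈ Subgroup.closure {χ}) :
    ψ = 1 ∨ ψ = χ := by
  induction hψ using Subgroup.closure_induction with
  | mem x hx => exact Or.inr hx
  | one => exact Or.inl rfl
  | mul x y _ _ hx hy =>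
    rcases hx with rfl | rfl
    · rcases hy with rfl | rfl
      · exact Or.inl (one_mul (M := Fam) 1)
      · exact Or.inr (one_mul (M := Fam) y)
    · rcases hy with rfl | rfl
      · exact Or.inr (mul_one (M := Fam) x)
      · exact Or.inl h5
  | inv x _ hx =>
    rcases hx with rfl | rfl
    · exact Or.inl (inv_one (G := Fam))
    · exact Or.inr (inv_eq_of_mul_eq_one_right (G := Fam) h5)

/-- **Theorem.** Let `E_i : y² = x³ + a_i x + b_i`, `i = 1, …, m`, be elliptic curves over `ℚ` with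
newforms `f_i`, `G₀` a finite group of Dirichlet characters of squarefree conductors composed of primes
`q ∤ 2 Δ_i`, and `H` a group of quadratic Dirichlet characters of squarefree conductors composed of
primes admissible for `l = 2`. Let `e > 0` be even with `h ^ e = 1` for all `h ∈ G₀`, `O` the ring
generated by the roots of unity of order dividing `e`, `P` a maximal ideal of `O` containing `2`,
`B(χ) = ∏_i ∏_{h ∈ G₀} g((h χ)⁻¹) L(f_i, h χ, 1)` for `χ ∈ H`, and let `Λ` be the `O`-module generated by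
the products of periods.

(1) The functions `L(f_i, h χ, s)` exist and are unique, for `h ∈ G₀`, `χ ∈ H`.

(2) `B(χ) ≠ 0` if and only if `L(f_i, h χ, 1) ≠ 0` for all `i` and all `h ∈ G₀`. In this case
`L(E_i/F, s) = L(E_i/F', s) M(s)`, `M` entire, `M(1) ≠ 0`, for all `i` and all number fields `F' ⊂ F`
contained in the field of the group generated by `G₀` and `χ` such that `F'` contains the intersection of
`F` and the field of `G₀`.

(3) If `B(χ₀) ≠ 0`, then `B(χ₀) ∉ P^(V+1) Λ` for some `V`.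

(4) Let `χ₀ ∈ H`, `B(χ₀) ∉ P^(V+1) Λ`, and let `U` be any subgroup of `H`. There is a `μ ≤ V` such that
the valuation of `B` is at least `μ` on `χ₀ U` and `μ` for at least the proportion `2 ^ (-μ)` of the
elements of `χ₀ U`, in the sense of `LeastValuation`. -/
theorem result :
    ∀ (m : ℕ) (a b : Fin m → ℤ), (∀ i, 4 * a i ^ 3 + 27 * b i ^ 2 ≠ 0) →
      ∀ N : Fin m → ℕ, (∀ i, N i ≠ 0) →
      ∀ f : (i : Fin m) → CuspForm (Gamma0 (N i) : Subgroup (GL (Fin 2) ℝ)) 2,
      (∀ i, IsFormOf (a i) (b i) (N i) (f i)) →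
      ∀ G₀ : Subgroup Fam, IsBase a b G₀ →
      ∀ H : Subgroup Fam, IsCharGroup a b G₀ 2 1 H →
      ∀ e : ℕ, 0 < e → 2 ∣ e → (∀ h ∈ G₀, h ^ e = 1) →
      ∀ P : Ideal (cyc e), P.IsMaximal → 2 ∈ P →
      (∀ χ ∈ H, ∀ h ∈ G₀, ∀ i, ∃! L, IsTwistL (f i) (h * χ) L) ∧
      (∀ χ ∈ H, (bsd f G₀ χ ≠ 0 ↔ ∀ i, ∀ h ∈ G₀, TwistNonvanishing (f i) (h * χ)) ∧
        (bsd f G₀ χ ≠ 0 → ∀ (F F' : IntermediateField ℚ ℂ) [NumberField F] [NumberField F'],
          F ≤ periodField (G₀ ⊔ Subgroup.closure {χ}) → F' ≤ F → F ⊓ periodField G₀ ≤ F' →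
            ∀ i, SameOrder F F' (a i) (b i) (f i))) ∧
      (∀ χ₀ ∈ H, bsd f G₀ χ₀ ≠ 0 → ∃ V : ℕ, ¬ Divisible f G₀ e P (V + 1) χ₀) ∧
      ∀ χ₀ ∈ H, ∀ V : ℕ, ¬ Divisible f G₀ e P (V + 1) χ₀ →
        ∀ U : Subgroup Fam, U ≤ H → ∃ μ : ℕ, μ ≤ V ∧ LeastValuation f G₀ e P χ₀ U μ := by
  classical
  intro m a b hΔ N hN f hf G₀ hG₀ H hH e he he2 hGe P hP h2P
  have : ∀ i, NeZero (N i) := fun i => ⟨hN i⟩
  have hlP : (((2 : ℕ) : Pool.Agent.X252.LW.Rc e)) ∈ P := by exact_mod_cast h2P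
  have hcase : ∀ χ ∈ H, (bsd f G₀ χ ≠ 0 ↔ ∀ i, ∀ h ∈ G₀, TwistNonvanishing (f i) (h * χ)) := by
    intro χ hχ
    unfold bsd
    rw [Finset.prod_ne_zero_iff]
    constructor
    · intro h1 i h hh
      exact (central_ne hG₀ hH hh hχ hf i).1 (h1 (i, h) ((mem_pairs hG₀ _).2 hh))
    · intro h1 x hx
      have hh := (mem_pairs hG₀ x).1 hx
      exact (central_ne hG₀ hH hh hχ hf x.1).2 (h1 x.1 x.2 hh)
  refine ⟨fun χ hχ h hh i => exists_unique_L hG₀ hH hh hχ hf i, fun χ hχ => ⟨hcase χ hχ, ?_⟩,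
    ?_, ?_⟩
  · intro hne F F' _ _ hF hFF hFK i
    have hall := (hcase χ hχ).1 hne
    have hrange : (Set.range (fun _ : Fin 1 => χ)) = {χ} := by
      ext x
      simp [eq_comm]
    have hle : Subgroup.closure (Set.range (fun _ : Fin 1 => χ)) ≤ H := by
      rw [hrange, Subgroup.closure_le]
      rintro x rfl
      exact hχ
    have h3 := (Pool.Agent.X252.TA.finish m a b hΔ N f (lib_of hf) (base_ok hG₀) (hok hH)
      (fun _ : Fin 1 => χ) hle (fun h hh ψ hψ hψ1 i => by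
        have h4 : ψ = χ := by
          rw [hrange] at hψ
          have h5 : χ * χ = 1 := by
            have h6 : χ ^ 2 = 1 := by
              have := hH.pow χ hχ
              rwa [pow_one] at this
            have := pow_two (M := Fam) χ
            rw [← this]
            exact h6
          exact (closure_sq h5 hψ).resolve_left hψ1
        subst h4
        have h5 := Pool.Agent.X252.TA.bt_of_tw m a b N f (lib_of hf)
          (fin_mul hG₀ hH (G₀.inv_mem hh) (H.inv_mem hχ))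
          (adm_mul hG₀ hH (G₀.inv_mem hh) (H.inv_mem hχ)) i (by
            have h6 : ψ⁻¹ = ψ := by
              have h7 : ψ ^ 2 = 1 := by
                have := hH.pow ψ hχ
                rwa [pow_one] at this
              have h8 : ψ * ψ = 1 := by
                have := pow_two (M := Fam) ψ
                rw [← this]
                exact h7
              exact inv_eq_of_mul_eq_one_right (G := Fam) h8
            rw [h6]
            exact hall i _ (G₀.inv_mem hh))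
        have h6 : (h⁻¹ * ψ⁻¹)⁻¹ = h * ψ := by
          have := Pool.Agent.X252.TA.inv_mulF h⁻¹ ψ⁻¹
          rw [this]
          have h7 : (h⁻¹)⁻¹ = h := Pool.Agent.X252.TA.inv_invF h
          have h8 : (ψ⁻¹)⁻¹ = ψ := Pool.Agent.X252.TA.inv_invF ψ
          rw [h7, h8]
        rwa [h6] at h5)).2.1 F F' (by rw [hrange]; exact hF) hFF hFK i
    exact sameOrder_of h3
  · intro χ₀ hχ₀ hne
    have h1 := (Pool.Agent.X252.TA.least_T m a b N f (lib_of hf) (n := 1) Nat.prime_two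
      (base_ok hG₀) (hok hH) he (by rw [pow_one]; exact he2) hGe hP hlP (pairs m G₀)
      (fun x hx => (mem_pairs hG₀ x).1 hx) χ₀ hχ₀).1
    rw [← bsd_eq hG₀ hH hχ₀ hf, ← lattice_eq hf] at h1
    exact h1 hne
  · intro χ₀ hχ₀ V hV U hU
    have h1 := (Pool.Agent.X252.TA.least_T m a b N f (lib_of hf) (n := 1) Nat.prime_two
      (base_ok hG₀) (hok hH) he (by rw [pow_one]; exact he2) hGe hP hlP (pairs m G₀)
      (fun x hx => (mem_pairs hG₀ x).1 hx) χ₀ hχ₀).2 V (by
        rw [← bsd_eq hG₀ hH hχ₀ hf, ← lattice_eq hf]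
        exact hV) U hU
    have hb : ∀ u ∈ U, Pool.Agent.X252.TA.BT m N f (pairs m G₀) (χ₀ * u) = bsd f G₀ (χ₀ * u) :=
      fun u hu => (bsd_eq hG₀ hH (H.mul_mem hχ₀ (hU hu)) hf).symm
    rw [← lattice_eq hf] at h1
    obtain ⟨μ, hμ, hmin, ⟨K, hK0, hK1, hK2, hK3⟩, hfinU⟩ := h1
    rw [pow_one] at hK1
    have hK4 : ∀ u ∈ U, K.card ≤
        2 ^ μ * {k | k ∈ K ∧ bsd f G₀ (χ₀ * (u * k)) ∉ P ^ (μ + 1) • lattice f G₀ e}.ncard := by
      intro u hu
      have h3 : (2 - 0) * K.card ≤ 2 ^ (μ + 1) *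
          {k | k ∈ K ∧ bsd f G₀ (χ₀ * (u * k)) ∉ P ^ (μ + 1) • lattice f G₀ e}.ncard := by
        refine (hK3 u hu μ 0 (by simp) (by norm_num)).trans
          (Nat.mul_le_mul_left _ (le_of_eq (congrArg Set.ncard ?_)))
        ext k
        simp only [Set.mem_ofPred_eq]
        exact and_congr_right fun hk => by
          rw [hb _ (U.mul_mem hu (hK2 k hk))]
          exact Iff.rfl
      rw [pow_succ] at h3
      have h5 : (2 - 0) * K.card = 2 * K.card := rfl
      rw [h5] at h3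
      nlinarith
    refine ⟨μ, hμ, fun u hu => by unfold Divisible; rw [← hb u hu]; exact hmin u hu,
      ⟨K, hK0, hK1, hK2, hK4⟩,
      fun hfin => ?_, ?_⟩
    · unfold Divisible
      have h3 : (2 - 0) * Nat.card U ≤ 2 ^ (μ + 1) *
          {u | u ∈ U ∧ bsd f G₀ (χ₀ * u) ∉ P ^ (μ + 1) • lattice f G₀ e}.ncard := by
        refine (hfinU hfin μ 0 (by simp) (by norm_num)).trans
          (Nat.mul_le_mul_left _ (le_of_eq (congrArg Set.ncard ?_)))
        ext u
        simp only [Set.mem_ofPred_eq]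
        exact and_congr_right fun hu => by
          rw [hb _ hu]
          exact Iff.rfl
      rw [pow_succ] at h3
      have h5 : (2 - 0) * Nat.card U = 2 * Nat.card U := rfl
      rw [h5] at h3
      nlinarith
    · refine ⟨∏ k ∈ K, conductor k, fun X => ?_⟩
      unfold Divisible
      have hpos : ∀ k ∈ K, 0 < conductor k := fun k hk =>
        conductor_pos _ fun q hq => (hH.admissible _ (hU (hK2 k hk)) q hq).1
      have h1 := Pool.Agent.X252.LW.encard_translate (G := Fam)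
        {u | u ∈ U ∧ conductor (χ₀ * u) ≤ X}
        {u | (u ∈ U ∧ conductor (χ₀ * u) ≤ (∏ k ∈ K, conductor k) * X) ∧
          bsd f G₀ (χ₀ * u) ∉ P ^ (μ + 1) • lattice f G₀ e} K hK0 1 (2 ^ μ) (fun u hu => by
          rw [one_mul]
          refine (hK4 u hu.1).trans (Nat.mul_le_mul_left _ ?_)
          refine Set.ncard_le_ncard (fun k hk => ?_) (K.finite_toSet.subset fun k hk => hk.1)
          refine ⟨hk.1, ⟨⟨U.mul_mem hu.1 (hK2 k hk.1), ?_⟩, hk.2⟩⟩
          have hmem := H.mul_mem hχ₀ (hU hu.1)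
          have h3 := conductor_mul (χ₀ * u) k (hH.finite _ hmem) (hH.finite _ (hU (hK2 k hk.1)))
            (fun q hq => (hH.admissible _ hmem q hq).1)
            (fun q hq => (hH.admissible _ (hU (hK2 k hk.1)) q hq).1)
          have h4 : conductor k ≤ ∏ k ∈ K, conductor k :=
            Nat.le_of_dvd (Finset.prod_pos hpos) (Finset.dvd_prod_of_mem conductor hk.1)
          have h5 : χ₀ * (u * k) = χ₀ * u * k := (mul_assoc (G := Fam) χ₀ u k).symm
          rw [h5]
          calc conductor (χ₀ * u * k) ≤ conductor (χ₀ * u) * conductor k := h3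
            _ ≤ X * ∏ k ∈ K, conductor k := Nat.mul_le_mul hu.2 h4
            _ = _ := mul_comm _ _)
      simpa using h1

end Pool.Agent.Results.MP_50bb2e_nt.TameBaseChangeTwists
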