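import Mathlib
import Pool.Agent.X99.CK.LocP
import Pool.Agent.X99.CK.Mq
import Pool.Agent.X99.C49.MQ
import Pool.Agent.X99.RL.Deg

/-!
# MP_50bb2e_nt: Selmer ranks and central values of the quadratic twists of the base change of `X_0(49)`
with prescribed local components
-/

set_option autoImplicit false
set_option linter.unusedSectionVars false
set_option linter.style.haveILetI false

open Filter NumberField IsDedekindDomain

namespace Pool.Agent.Results.MP_50bb2e_nt.UnramifiedLocalConditions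

/-- the odd squarefree sums of two squares -/
def 𝒟 : Set ℕ := {D : ℕ | Squarefree D ∧ Odd D ∧ ∃ x y : ℕ, D = x ^ 2 + y ^ 2}

/-- the `D ∈ 𝒟` for which the quadratic characters of `ℚ(√D)` and of `ℚ(√c)` have the same components
at all primes of `S`: `D c` is a square in `ℚ_p` for `p ∈ S` -/
def 𝒜 (S : Finset ℕ) (c : ℕ) : Set ℕ :=
  {D : ℕ | D ∈ 𝒟 ∧ ∀ (p : ℕ) [Fact p.Prime], p ∈ S → IsSquare ((D * c : ℕ) : ℚ_[p])}

/-- the squarefree part of `m D` for squarefree `m`, `D` -/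
def tw (m D : ℕ) : ℕ := m * D / (Nat.gcd m D) ^ 2

/-- the share of the `D ≤ X` in `𝒜 S c` which are in `T` -/
noncomputable def share (S : Finset ℕ) (c : ℕ) (T : Set ℕ) (X : ℕ) : ℝ :=
  ({D : ℕ | D ∈ 𝒜 S c ∧ D ≤ X ∧ D ∈ T}.ncard : ℝ) / ({D : ℕ | D ∈ 𝒜 S c ∧ D ≤ X}.ncard : ℝ)

/-- `N² = b₁ M⁴ + a M² e² + (b/b₁) e⁴` has a solution with `(M, e) ≠ (0, 0)` in `K` -/
def Solv (K : Type) [Field K] (a b b₁ : ℤ) : Prop :=
  ∃ N M e : K, (M ≠ 0 ∨ e ≠ 0) ∧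
    N ^ 2 = (b₁ : K) * M ^ 4 + (a : K) * M ^ 2 * e ^ 2 + ((b / b₁ : ℤ) : K) * e ^ 4

/-- the squarefree `b₁ ∣ b` for which this quartic is everywhere locally solvable: the classes of the
Selmer group of the isogeny dual to `(x, y) ↦ (x + a + b/x, y (1 - b/x²))` of `y² = x³ + a x² + b x` -/
def Sel (a b : ℤ) : Set ℤ :=
  {b₁ : ℤ | Squarefree b₁ ∧ b₁ ∣ b ∧ Solv ℝ a b b₁ ∧ ∀ (p : ℕ) [Fact p.Prime], Solv ℚ_[p] a b b₁}

/-- both 2-isogeny Selmer groups of the twist of `X_0(49)` by `D`, with the equation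
`y² = x³ + 21 D x² + 112 D² x`, have order `2 ^ (k + 1)` -/
def SelmerRank (D : ℤ) (k : ℕ) : Prop :=
  (Sel (21 * D) (112 * D ^ 2)).ncard = 2 ^ (k + 1) ∧
    (Sel (-2 * (21 * D)) ((21 * D) ^ 2 - 4 * (112 * D ^ 2))).ncard = 2 ^ (k + 1)

/-- the probabilities `c / ∏_{i ≤ k} (2^i - 1)`, `c = ∏_{i ≥ 0} (1 - 2^(-2i-1))` -/
noncomputable def prob (k : ℕ) : ℝ :=
  (∏' i : ℕ, (1 - (1 / 2 : ℝ) ^ (2 * i + 1))) / ∏ i ∈ Finset.Icc 1 k, ((2 : ℝ) ^ i - 1)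

/-- the curve `y² = x³ - 35 M² x - 98 M³` over the field `F`, the quadratic twist by `M` of
`X_0(49)` -/
def E (F : Type) [Field F] (M : ℤ) : WeierstrassCurve F :=
  { a₁ := 0, a₂ := 0, a₃ := 0, a₄ := ((-35 * M ^ 2 : ℤ) : F), a₆ := ((-98 * M ^ 3 : ℤ) : F) }

/-- `F = ℚ(√d₁, …, √dₙ)` with `dᵢ ∈ 𝒟` independent modulo squares -/
def IsMq (F : Type) [Field F] [NumberField F] {n : ℕ} (d : Fin n → ℕ) : Prop :=
  (∀ i, d i ∈ 𝒟) ∧ (∀ T : Finset (Fin n), T.Nonempty → ¬ IsSquare (∏ i ∈ T, d i)) ∧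
    ∃ x : Fin n → F, (∀ i, x i ^ 2 = (d i : F)) ∧
      IntermediateField.adjoin ℚ (Set.range x) = ⊤

/-- the number `q_v` of elements of the residue field of a finite place `v` of `K` -/
noncomputable def qv (K : Type) [Field K] (v : HeightOneSpectrum (𝓞 K)) : ℕ :=
  Nat.card (𝓞 K ⧸ v.asIdeal)

/-- `a_v = q_v + 1 - #E_M(k_v)`, that is `q_v` minus the number of affine points -/
noncomputable def av (K : Type) [Field K] (M : ℤ) (v : HeightOneSpectrum (𝓞 K)) : ℤ :=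
  (qv K v : ℤ) - Nat.card {z : (𝓞 K ⧸ v.asIdeal) × (𝓞 K ⧸ v.asIdeal) //
    z.2 ^ 2 = z.1 ^ 3 + ((-35 * M ^ 2 : ℤ) : 𝓞 K ⧸ v.asIdeal) * z.1 +
      ((-98 * M ^ 3 : ℤ) : 𝓞 K ⧸ v.asIdeal)}

open Classical in
/-- `Λ` is entire and is, for `Re s > 3/2`, the `L`-function of `E_M` over `K` without the Euler
factors at the places `v ∣ 14 M m` -/
def IsL (K : Type) [Field K] (M m : ℤ) (Λ : ℂ → ℂ) : Prop :=
  Differentiable ℂ Λ ∧ ∀ s : ℂ, (3 : ℝ) / 2 < s.re →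
    HasProd (fun v : HeightOneSpectrum (𝓞 K) =>
      if ((14 * M * m : ℤ) : 𝓞 K) ∈ v.asIdeal then 1 else
        (1 - (av K M v : ℂ) * (qv K v : ℂ) ^ (-s) + (qv K v : ℂ) ^ (1 - 2 * s))⁻¹) (Λ s)

/-- the `L`-function of the twist by `M` over `F = ℚ(√d₁, …, √dₙ)` does not vanish at its centre, and the
twist has finitely many points over `F` -/
def OrderZero (F : Type) [Field F] [NumberField F] {n : ℕ} (d : Fin n → ℕ) (M : ℤ) : Prop :=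
  (∃ Λ : ℂ → ℂ, IsL F M (∏ i, (d i : ℤ)) Λ ∧ Λ 1 ≠ 0) ∧ Finite (E F M).toAffine.Point

open Pool.Agent.X99.CK Pool.Agent.X99.C49

theorem cf_prod (k : ℕ) : Pool.Agent.Y697.PQ.cf k = 1 / ∏ i ∈ Finset.Icc 1 k, ((2 : ℝ) ^ i - 1) := by
  induction k with
  | zero => simp [Pool.Agent.Y697.PQ.cf]
  | succ k ih =>
    rw [Finset.prod_Icc_succ_top (by omega), Pool.Agent.Y697.PQ.cf, ih, div_div]

theorem prob_eq (k : ℕ) : prob k = pr k := by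
  unfold prob pr
  rw [cf_prod, Pool.Agent.Y697.CJ.gi_eq, mul_one_div]
  rfl

theorem mem_𝒟 {D : ℕ} : D ∈ 𝒟 ↔ Fam D := fam_two D

section cond

variable {S : Finset ℕ} {c : ℕ}

theorem mem_𝒜 (hS : ∀ p ∈ S, p.Prime) (hc : c ∈ 𝒟) (hcS : ∀ p ∈ S, ¬ p ∣ c) {D : ℕ} :
    D ∈ 𝒜 S c ↔ Fam D ∧ D % mS S ∈ RS S c := by
  constructor
  · rintro ⟨h1, h2⟩
    have h := mem_𝒟.1 h1
    exact ⟨h, (loc_iff hS (mem_𝒟.1 hc) hcS h).1 h2⟩
  · rintro ⟨h, h2⟩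
    exact ⟨mem_𝒟.2 h, (loc_iff hS (mem_𝒟.1 hc) hcS h).2 h2⟩

theorem share_eq (hS : ∀ p ∈ S, p.Prime) (hc : c ∈ 𝒟) (hcS : ∀ p ∈ S, ¬ p ∣ c) (T : Set ℕ)
    (X : ℕ) : share S c T X = pQ (fun D => D % mS S ∈ RS S c) T X := by
  classical
  obtain ⟨Q, hQ⟩ : ∃ Q : ℕ → Prop, Q = fun D => D % mS S ∈ RS S c := ⟨_, rfl⟩
  have hA : ∀ D, D ∈ 𝒜 S c ↔ Fam D ∧ Q D := fun D => by
    rw [hQ]
    exact mem_𝒜 hS hc hcS
  rw [← hQ]
  unfold share pQ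
  congr 1
  · congr 1
    rw [← Set.ncard_coe_finset]
    congr 1
    ext D
    rw [Finset.mem_coe, Finset.mem_filter, Finset.mem_Icc]
    constructor
    · rintro ⟨h1, h2, h3⟩
      have h := (hA D).1 h1
      exact ⟨⟨Nat.pos_of_ne_zero h.1.1.ne_zero, h2⟩, h.1, h.2, h3⟩
    · rintro ⟨⟨-, h2⟩, h1, h3, h4⟩
      exact ⟨(hA D).2 ⟨h1, h3⟩, h2, h4⟩
  · congr 1
    rw [← Set.ncard_coe_finset]
    congr 1
    ext D
    rw [Finset.mem_coe, Finset.mem_filter, Finset.mem_Icc]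
    constructor
    · rintro ⟨h1, h2⟩
      have h := (hA D).1 h1
      exact ⟨⟨Nat.pos_of_ne_zero h.1.1.ne_zero, h2⟩, h.1, h.2⟩
    · rintro ⟨⟨-, h2⟩, h1, h3⟩
      exact ⟨(hA D).2 ⟨h1, h3⟩, h2⟩

theorem c_mem (hS : ∀ p ∈ S, p.Prime) (hc : c ∈ 𝒟) (hcS : ∀ p ∈ S, ¬ p ∣ c) :
    Fam c ∧ c % mS S ∈ RS S c :=
  ⟨mem_𝒟.1 hc, (loc_iff hS (mem_𝒟.1 hc) hcS (mem_𝒟.1 hc)).1 fun q _ _ =>
    ⟨(c : ℚ_[q]), by push_cast; ring⟩⟩

theorem cop_mS {m : ℕ} (hS : ∀ p ∈ S, p.Prime) (hm : Fam m) (h : ∀ p ∈ S, ¬ p ∣ m) :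
    Nat.Coprime m (mS S) := by
  refine (fam_224 hm).mul_right (Nat.Coprime.prod_right fun p hp => ?_)
  rw [Nat.coprime_comm, (hS p hp).coprime_iff_not_dvd]
  exact h p hp

theorem law (hS : ∀ p ∈ S, p.Prime) (hc : c ∈ 𝒟) (hcS : ∀ p ∈ S, ¬ p ∣ c) {𝓜 : Finset ℕ}
    (hM : ∀ m ∈ 𝓜, m ∈ 𝒟 ∧ ∀ p ∈ S, ¬ p ∣ m) (A : ℕ → Set ℕ) :
    Tendsto (share S c {D | ∀ m ∈ 𝓜, kk (Pool.Agent.X99.GJ.star m D) ∈ A m}) atTop
      (nhds (∏ m ∈ 𝓜, ∑' k, (A m).indicator prob k)) := by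
  have hpe : prob = pr := funext prob_eq
  rw [hpe]
  have h := setQ (Q := fun D => D % mS S ∈ RS S c) (c_mem hS hc hcS) 𝓜
    (fun m D => kk (Pool.Agent.X99.GJ.star m D))
    (fun r => lawPM (okRS hS (mem_𝒟.1 hc) hcS) 𝓜 (fun m hm =>
      ⟨mem_𝒟.1 (hM m hm).1, cop_mS hS (mem_𝒟.1 (hM m hm).1) (hM m hm).2⟩) r) A
  exact h.congr fun X => (share_eq hS hc hcS _ X).symm

theorem share_mono (hS : ∀ p ∈ S, p.Prime) (hc : c ∈ 𝒟) (hcS : ∀ p ∈ S, ¬ p ∣ c) {T T' : Set ℕ}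
    (h : ∀ D, Fam D → D ∈ T → D ∈ T') (X : ℕ) : share S c T X ≤ share S c T' X := by
  rw [share_eq hS hc hcS, share_eq hS hc hcS]
  exact pQ_mono (fun D hD _ => h D hD) X

end cond

theorem selmer_iff {D : ℕ} (h : Fam D) (k : ℕ) : SelmerRank D k ↔ kk D = k := by
  obtain ⟨h1, h2⟩ := sel_card h
  rw [nK_kk, ← pow_succ'] at h1 h2
  have e1 : -2 * (21 * (D : ℤ)) = -42 * (D : ℤ) := by ring
  have e2 : (21 * (D : ℤ)) ^ 2 - 4 * (112 * (D : ℤ) ^ 2) = -7 * (D : ℤ) ^ 2 := by ring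
  unfold SelmerRank
  rw [e1, e2]
  constructor
  · rintro ⟨h3, -⟩
    have h4 : 2 ^ (kk D + 1) = 2 ^ (k + 1) := h1.symm.trans h3
    have := Nat.pow_right_injective le_rfl h4
    omega
  · rintro rfl
    exact ⟨h1, h2⟩

open Classical in
theorem isL_of {K : Type} [Field K] [NumberField K] {M m : ℤ} {F : ℂ → ℂ}
    (h : Pool.Agent.Y19.QT.IsLFunK K (-35 * M ^ 2) (-98 * M ^ 3) m F) : IsL K M m F := by
  have key : ∀ v : HeightOneSpectrum (𝓞 K),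
      (((14 * M * m : ℤ) : 𝓞 K) ∈ v.asIdeal ↔
        ((2 * (4 * (-35 * M ^ 2) ^ 3 + 27 * (-98 * M ^ 3) ^ 2) * m : ℤ) : 𝓞 K) ∈ v.asIdeal) := by
    intro v
    have := v.isPrime
    constructor
    · intro h1
      have e : ((2 * (4 * (-35 * M ^ 2) ^ 3 + 27 * (-98 * M ^ 3) ^ 2) * m : ℤ) : 𝓞 K) =
          ((2 ^ 8 * 7 ^ 2 * M ^ 5 : ℤ) : 𝓞 K) * ((14 * M * m : ℤ) : 𝓞 K) := by
        rw [← Int.cast_mul]
        congr 1
        ring
      rw [e]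
      exact Ideal.mul_mem_left _ _ h1
    · intro h1
      refine Ideal.IsPrime.mem_of_pow_mem this 9 ?_
      have e : ((14 * M * m : ℤ) : 𝓞 K) ^ 9 =
          ((7 ^ 6 * M ^ 3 * m ^ 8 : ℤ) : 𝓞 K) *
            ((2 * (4 * (-35 * M ^ 2) ^ 3 + 27 * (-98 * M ^ 3) ^ 2) * m : ℤ) : 𝓞 K) := by
        rw [← Int.cast_mul, ← Int.cast_pow]
        congr 1
        ring
      rw [e]
      exact Ideal.mul_mem_left _ _ h1
  unfold IsL
  simp only [key]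
  exact h

/-- the field -/
theorem field {S : Finset ℕ} {M : ℕ} (hM : M ∈ 𝒟) (hMS : ∀ p ∈ S, ¬ p ∣ M)
    (hS : ∀ p ∈ S, p.Prime) {F : Type} [Field F] [NumberField F] {n : ℕ} {d : Fin n → ℕ}
    (h : IsMq F d) (hdS : ∀ i, ∀ p ∈ S, ¬ p ∣ d i) :
    Module.finrank ℚ F = 2 ^ n ∧ ∃ 𝓜 : Finset ℕ, (∀ m ∈ 𝓜, m ∈ 𝒟 ∧ ∀ p ∈ S, ¬ p ∣ m) ∧
      𝓜.card = 2 ^ n ∧ ∀ D, Fam D → (∀ m ∈ 𝓜, kk (Pool.Agent.X99.GJ.star m D) = 0) →
        OrderZero F d (M * D) := by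
  classical
  obtain ⟨hd, hind, x, hx, hgen⟩ := h
  have hF : ∀ i, Fam (d i) := fun i => mem_𝒟.1 (hd i)
  have hInd : Pool.Agent.Y687.MQ.Ind (fun i => (d i : ℤ)) := by
    intro T hT hsq
    refine hind T hT ?_
    have h1 : IsSquare (((∏ i ∈ T, d i : ℕ)) : ℤ) := by
      push_cast
      exact hsq
    exact Int.isSquare_natCast_iff.1 h1
  refine ⟨?_, ?_⟩
  · refine Pool.Agent.X99.RL.deg_of_ind n ℚ F (fun i => (d i : ℤ)) x (fun i => by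
      rw [hx i]; push_cast; rfl) hgen fun T hT y hy => hind T hT ?_
    have h1 : IsSquare ((∏ i ∈ T, d i : ℕ) : ℚ) := ⟨y, by
      rw [← pow_two, hy]
      push_cast
      rfl⟩
    exact Rat.isSquare_natCast_iff.1 h1
  · obtain ⟨m, hinj, hm⟩ := exists_m (d := fun i => (d i : ℤ)) hInd
      (fun i => ⟨d i, 1, hF i, one_ne_zero, by ring⟩) (N := (M : ℤ))
      ⟨M, 1, mem_𝒟.1 hM, one_ne_zero, by ring⟩
    refine ⟨Finset.univ.image m, fun a ha => ?_, ?_, fun D hD h0 => ?_⟩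
    · obtain ⟨T, -, rfl⟩ := Finset.mem_image.1 ha
      refine ⟨mem_𝒟.2 (hm T).1, fun p hp hpm => ?_⟩
      obtain ⟨-, k, hk, he⟩ := hm T
      have hpp : Prime (p : ℤ) := Nat.prime_iff_prime_int.1 (hS p hp)
      have h1 : (p : ℤ) ∣ (M : ℤ) * ∏ i ∈ T, (d i : ℤ) := by
        rw [he]
        exact Dvd.dvd.mul_right (Int.natCast_dvd_natCast.2 hpm) _
      rcases hpp.dvd_or_dvd h1 with h2 | h2
      · exact hMS p hp (Int.natCast_dvd_natCast.1 h2)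
      · obtain ⟨i, -, h3⟩ := (hpp.dvd_finsetProd_iff _).1 h2
        exact hdS i p hp (Int.natCast_dvd_natCast.1 h3)
    · rw [Finset.card_image_of_injective _ hinj, Finset.card_univ, Fintype.card_finset,
        Fintype.card_fin]
    · have hgo : GO (fun i => (d i : ℤ)) ((M : ℤ) * D) := (GO_iff hm hD).2 fun T =>
        (crit (fam_star (hm T).1 hD)).2 ((kk_zero _).1 (h0 _
          (Finset.mem_image_of_mem _ (Finset.mem_univ T))))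
      obtain ⟨⟨Λ, h1, h2⟩, h3⟩ := field_thm hInd hgo F x (fun i => by
        rw [hx i]; push_cast; rfl) hgen
      exact ⟨⟨Λ, isL_of h1, h2⟩, h3⟩

/-- **Twists with prescribed local components.** Let `S` be a finite set of primes and `c ∈ 𝒟` prime to
`S`; `𝒜 S c` is the set of the `D ∈ 𝒟` (odd squarefree sums of two squares) such that the quadratic
characters `χ_D` and `χ_c` have the same components at the places of `S` (and at infinity).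
(1) `𝒜 S c` is infinite.
(2) For finitely many `m ∈ 𝓜 ⊆ 𝒟` prime to `S` the 2-isogeny Selmer ranks of the twists by `m D` of
`X_0(49)`, `D ∈ 𝒜 S c`, are independent and follow the law `prob`, which does not depend on `S`, `c`.
(3) Let `F = ℚ(√d₁, …, √dₙ)`, `dᵢ ∈ 𝒟` prime to `S`, `[F : ℚ] = 2 ^ n`, and let `π` be the base change to
`F` of the twist by `M` of `X_0(49)`, `M ∈ 𝒟` prime to `S`. The share of the `D ∈ 𝒜 S c` with
`L(1/2, π ⊗ χ_D) ≠ 0` and finitely many points over `F` has lower limit at least `prob 0 ^ (2 ^ n)`. -/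
theorem result :
    ((∀ k, 0 < prob k) ∧ HasSum prob 1 ∧ 0.4194 < prob 0 ∧ prob 0 < 0.4195) ∧
    ∀ (S : Finset ℕ) (c : ℕ), (∀ p ∈ S, p.Prime) → c ∈ 𝒟 → (∀ p ∈ S, ¬ p ∣ c) →
      (𝒜 S c).Infinite ∧
      (∀ 𝓜 : Finset ℕ, (∀ m ∈ 𝓜, m ∈ 𝒟 ∧ ∀ p ∈ S, ¬ p ∣ m) → ∀ A : ℕ → Set ℕ,
        Tendsto (share S c {D : ℕ | ∀ m ∈ 𝓜, ∃ k ∈ A m, SelmerRank (tw m D) k}) atTop
          (nhds (∏ m ∈ 𝓜, ∑' k, (A m).indicator prob k))) ∧
      ∀ (n : ℕ) (d : Fin n → ℕ) (F : Type) [Field F] [NumberField F], IsMq F d →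
        (∀ i, ∀ p ∈ S, ¬ p ∣ d i) → Module.finrank ℚ F = 2 ^ n ∧
        ∀ M ∈ 𝒟, (∀ p ∈ S, ¬ p ∣ M) → ∀ ε : ℝ, 0 < ε → ∀ᶠ X : ℕ in atTop,
          prob 0 ^ 2 ^ n - ε ≤ share S c {D : ℕ | OrderZero F d (M * D)} X := by
  have hpe : prob = pr := funext prob_eq
  have hst : ∀ m D : ℕ, tw m D = Pool.Agent.X99.GJ.star m D := fun _ _ => rfl
  have hb := (Pool.Agent.Y948.CQ.c2_main Pool.Agent.Y697.PQ.gi Pool.Agent.Y697.CJ.gi_eq).2
  have hp0 : prob 0 = Pool.Agent.Y697.PQ.gi := by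
    rw [hpe]
    show Pool.Agent.Y697.PQ.gi * Pool.Agent.Y697.PQ.cf 0 = _
    rw [show Pool.Agent.Y697.PQ.cf 0 = 1 from rfl, mul_one]
  have one_mem : (1 : ℕ) ∈ 𝒟 := mem_𝒟.2 Pool.Agent.X99.C49.fam_one
  refine ⟨⟨fun k => ?_, ?_, ?_, ?_⟩, fun S c hS hc hcS => ⟨?_, fun 𝓜 hM A => ?_,
    fun n d F _ _ hF hdS => ⟨?_, fun M hM hMS ε hε => ?_⟩⟩⟩
  · rw [hpe]
    exact mul_pos hb.1 (Pool.Agent.Y697.PQ.cf_pos k)
  · rw [hpe]
    exact hasSum_pr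
  · rw [hp0]
    exact hb.2.2.1
  · rw [hp0]
    exact hb.2.2.2
  · refine (loc_inf hS (mem_𝒟.1 hc) hcS).mono fun D hD => (mem_𝒜 hS hc hcS).2 hD
  · refine (law hS hc hcS hM A).congr fun X => ?_
    have key : ∀ D, Fam D → ((∀ m ∈ 𝓜, kk (Pool.Agent.X99.GJ.star m D) ∈ A m) ↔
        ∀ m ∈ 𝓜, ∃ k ∈ A m, SelmerRank (tw m D) k) := by
      intro D hD
      refine forall_congr' fun m => forall_congr' fun hm => ?_
      have hF := fam_star (mem_𝒟.1 (hM m hm).1) hD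
      constructor
      · intro h
        exact ⟨_, h, by rw [hst, selmer_iff hF]⟩
      · rintro ⟨k, hk, h⟩
        rw [hst, selmer_iff hF] at h
        rw [h]
        exact hk
    exact le_antisymm (share_mono hS hc hcS (fun D hD h => (key D hD).1 h) X)
      (share_mono hS hc hcS (fun D hD h => (key D hD).2 h) X)
  · exact (field one_mem (fun p hp h => (hS p hp).one_lt.ne' (Nat.dvd_one.1 h)) hS hF hdS).1
  · obtain ⟨-, 𝓜, h1, h2, h3⟩ := field hM hMS hS hF hdS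
    have h4 := law hS hc hcS h1 fun _ => {0}
    have h5 : ∑' k : ℕ, ({0} : Set ℕ).indicator prob k = prob 0 := by
      rw [tsum_eq_single 0, Set.indicator_of_mem (Set.mem_singleton 0)]
      intro k hk
      exact Set.indicator_of_notMem (fun h => hk (Set.mem_singleton_iff.1 h)) _
    rw [Finset.prod_const, h5, h2] at h4
    filter_upwards [h4.eventually (lt_mem_nhds (sub_lt_self _ hε))] with X hX
    refine hX.le.trans (share_mono hS hc hcS (fun D hD h => ?_) X)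
    exact h3 D hD fun m hm => h m hm

end Pool.Agent.Results.MP_50bb2e_nt.UnramifiedLocalConditions
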